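import Mathlib

set_option autoImplicit false

namespace Pool.Agent.TH835.G5

lemma pack {ι : Type*} [DecidableEq ι] (Z : Finset ι) (s w : ι → ℤ) (lo hi : ℤ)
    (hlo : ∀ x ∈ Z, lo ≤ s x) (hhi : ∀ x ∈ Z, s x + w x ≤ hi) (hw : ∀ x ∈ Z, 0 ≤ w x)
    (hd : ∀ x ∈ Z, ∀ y ∈ Z, x ≠ y → s x + w x ≤ s y ∨ s y + w y ≤ s x)
    (hlh : lo ≤ hi) : ∑ x ∈ Z, w x ≤ hi - lo := by
  have h1 : (Z.biUnion (fun x => Finset.Ico (s x) (s x + w x))) ⊆ Finset.Ico lo hi := by
    intro t ht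
    rw [Finset.mem_biUnion] at ht
    obtain ⟨x, hx, ht⟩ := ht
    rw [Finset.mem_Ico] at ht ⊢
    have := hlo x hx
    have := hhi x hx
    omega
  have h2 := Finset.card_le_card h1
  rw [Finset.card_biUnion (by
    intro x hx y hy hxy
    show Disjoint (Finset.Ico (s x) (s x + w x)) (Finset.Ico (s y) (s y + w y))
    rw [Finset.disjoint_left]
    intro t ht ht'
    rw [Finset.mem_Ico] at ht ht'
    rcases hd x hx y hy hxy with h | h <;> omega)] at h2
  rw [Int.card_Ico] at h2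
  have h3 : ∑ x ∈ Z, w x = ((∑ x ∈ Z, (Finset.Ico (s x) (s x + w x)).card : ℕ) : ℤ) := by
    rw [Nat.cast_sum]
    apply Finset.sum_congr rfl
    intro x hx
    rw [Int.card_Ico]
    have := hw x hx
    omega
  rw [h3]
  omega

/-- the linear facts we need about the data of one point -/
structure Pt (M e1 e2 e3 w : ℤ) : Prop where
  p1 : 0 ≤ e1
  p2 : 0 ≤ e2
  p3 : 0 ≤ e3
  s : e1 + e2 + e3 = M
  w0 : 0 ≤ w
  w3 : w ≤ 3
  a1 : w ≤ 1 + e1
  a2 : w ≤ 1 + e2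
  a3 : w ≤ 1 + e3
  b1 : w ≤ e2 + e3 - 1
  b2 : w ≤ e1 + e3 - 1
  b3 : w ≤ e1 + e2 - 1

lemma Pt.r12 {M e1 e2 e3 w : ℤ} (h : Pt M e1 e2 e3 w) : Pt M e2 e1 e3 w :=
  ⟨h.p2, h.p1, h.p3, by have := h.s; omega, h.w0, h.w3, h.a2, h.a1, h.a3, h.b2, h.b1,
    by have := h.b3; omega⟩

lemma Pt.r13 {M e1 e2 e3 w : ℤ} (h : Pt M e1 e2 e3 w) : Pt M e3 e2 e1 w :=
  ⟨h.p3, h.p2, h.p1, by have := h.s; omega, h.w0, h.w3, h.a3, h.a2, h.a1,
    by have := h.b3; omega, by have := h.b2; omega, by have := h.b1; omega⟩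

/-- compatibility of two points -/
def Cp (M a1 a2 a3 b1 b2 b3 : ℤ) : Prop :=
  M + 1 ≤ a1 + b2 ∨ M + 1 ≤ a1 + b3 ∨ M + 1 ≤ a2 + b1 ∨ M + 1 ≤ a2 + b3 ∨
    M + 1 ≤ a3 + b1 ∨ M + 1 ≤ a3 + b2

lemma chain_aux {ι : Type*} [DecidableEq ι] (M : ℤ) (hM : 4 ≤ M) (Z : Finset ι)
    (e1 e2 e3 w : ι → ℤ)
    (hPt : ∀ x ∈ Z, Pt M (e1 x) (e2 x) (e3 x) (w x))
    (hCp : ∀ x ∈ Z, ∀ y ∈ Z, x ≠ y → Cp M (e1 x) (e2 x) (e3 x) (e1 y) (e2 y) (e3 y))
    (lo : ℤ) (hlo : lo ≤ M - 1)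
    (hl : ∀ x ∈ Z, M + 1 ≤ 2 * e1 x → lo ≤ e1 x) :
    ∑ x ∈ Z.filter (fun x => M + 1 ≤ 2 * e1 x), w x ≤ M - 1 - lo := by
  apply pack _ e1 w lo (M - 1)
  · intro x hx
    rw [Finset.mem_filter] at hx
    exact hl x hx.1 hx.2
  · intro x hx
    rw [Finset.mem_filter] at hx
    obtain ⟨p1, p2, p3, s, w0, w3, a1, a2, a3, b1, b2, b3⟩ := hPt x hx.1
    omega
  · intro x hx
    rw [Finset.mem_filter] at hx
    exact (hPt x hx.1).w0
  · intro x hx y hy hxy
    rw [Finset.mem_filter] at hx hy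
    obtain ⟨p1, p2, p3, s, w0, w3, a1, a2, a3, b1, b2, b3⟩ := hPt x hx.1
    obtain ⟨q1, q2, q3, s', w0', w3', c1, c2, c3, d1, d2, d3⟩ := hPt y hy.1
    have hc := hCp x hx.1 y hy.1 hxy
    unfold Cp at hc
    have := hx.2
    have := hy.2
    rcases hc with h | h | h | h | h | h <;> omega
  · exact hlo

lemma comb_z {ι : Type*} [DecidableEq ι] (M : ℤ) (hM : 4 ≤ M) (Z : Finset ι)
    (e1 e2 e3 w : ι → ℤ)
    (hPt : ∀ x ∈ Z, Pt M (e1 x) (e2 x) (e3 x) (w x))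
    (hCp : ∀ x ∈ Z, ∀ y ∈ Z, x ≠ y → Cp M (e1 x) (e2 x) (e3 x) (e1 y) (e2 y) (e3 y))
    (z : ι) (hz : z ∈ Z) (z1 : 2 * e1 z ≤ M) (z2 : e2 z ≤ e1 z) (z3 : e3 z ≤ e1 z) :
    ∑ x ∈ Z, w x ≤ 2 * M - 7 := by
  have hzP := hPt z hz
  have hzs := hzP.s
  -- other points have a big coordinate
  have big : ∀ x ∈ Z, x ≠ z → M + 1 ≤ 2 * e1 x ∨ M + 1 ≤ 2 * e2 x ∨ M + 1 ≤ 2 * e3 x := by
    intro x hx hxz
    have hc := hCp x hx z hz hxz
    unfold Cp at hc
    rcases hc with h | h | h | h | h | h <;> omega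
  have big1 : ∀ x ∈ Z, x ≠ z → M + 1 ≤ 2 * e1 x → e1 z + w z ≤ e1 x := by
    intro x hx hxz hb
    have hc := hCp x hx z hz hxz
    obtain ⟨p1, p2, p3, s, w0, w3, a1, a2, a3, b1, b2, b3⟩ := hPt x hx
    obtain ⟨q1, q2, q3, s', w0', w3', c1, c2, c3, d1, d2, d3⟩ := hzP
    unfold Cp at hc
    rcases hc with h | h | h | h | h | h <;> omega
  have big2 : ∀ x ∈ Z, M + 1 ≤ 2 * e2 x → M + 1 - e1 z ≤ e2 x := by
    intro x hx hb
    have hxz : x ≠ z := by rintro rfl; omega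
    have hc := hCp x hx z hz hxz
    obtain ⟨p1, p2, p3, s, w0, w3, a1, a2, a3, b1, b2, b3⟩ := hPt x hx
    obtain ⟨q1, q2, q3, s', w0', w3', c1, c2, c3, d1, d2, d3⟩ := hzP
    unfold Cp at hc
    rcases hc with h | h | h | h | h | h <;> omega
  have big3 : ∀ x ∈ Z, M + 1 ≤ 2 * e3 x → M + 1 - e1 z ≤ e3 x := by
    intro x hx hb
    have hxz : x ≠ z := by rintro rfl; omega
    have hc := hCp x hx z hz hxz
    obtain ⟨p1, p2, p3, s, w0, w3, a1, a2, a3, b1, b2, b3⟩ := hPt x hx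
    obtain ⟨q1, q2, q3, s', w0', w3', c1, c2, c3, d1, d2, d3⟩ := hzP
    unfold Cp at hc
    rcases hc with h | h | h | h | h | h <;> omega
  have S2 := chain_aux M hM Z e2 e1 e3 w (fun x hx => (hPt x hx).r12)
    (fun x hx y hy hxy => by
      have := hCp x hx y hy hxy
      unfold Cp at this ⊢
      rcases this with h | h | h | h | h | h <;> omega) (M + 1 - e1 z) (by omega) big2
  have S3 := chain_aux M hM Z e3 e2 e1 w (fun x hx => (hPt x hx).r13)
    (fun x hx y hy hxy => by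
      have := hCp x hx y hy hxy
      unfold Cp at this ⊢
      rcases this with h | h | h | h | h | h <;> omega) (M + 1 - e1 z) (by omega) big3
  have S1 : ∑ x ∈ Z.filter (fun x => M + 1 ≤ 2 * e1 x ∨ x = z), w x ≤ M - 1 - e1 z := by
    apply pack _ e1 w (e1 z) (M - 1)
    · intro x hx
      rw [Finset.mem_filter] at hx
      rcases hx.2 with h | h
      · by_cases hxz : x = z
        · rw [hxz]
        · have := big1 x hx.1 hxz h
          have := hzP.w0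
          omega
      · rw [h]
    · intro x hx
      rw [Finset.mem_filter] at hx
      obtain ⟨p1, p2, p3, s, w0, w3, a1, a2, a3, b1, b2, b3⟩ := hPt x hx.1
      omega
    · intro x hx
      rw [Finset.mem_filter] at hx
      exact (hPt x hx.1).w0
    · intro x hx y hy hxy
      rw [Finset.mem_filter] at hx hy
      by_cases hxz : x = z
      · subst hxz
        rcases hy.2 with h | h
        · left; exact big1 y hy.1 hxy.symm h
        · exact absurd h.symm hxy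
      · by_cases hyz : y = z
        · subst hyz
          rcases hx.2 with h | h
          · right; exact big1 x hx.1 hxy h
          · exact absurd h hxy
        · have hx2 : M + 1 ≤ 2 * e1 x := by
            rcases hx.2 with h | h
            · exact h
            · exact absurd h hxz
          have hy2 : M + 1 ≤ 2 * e1 y := by
            rcases hy.2 with h | h
            · exact h
            · exact absurd h hyz
          obtain ⟨p1, p2, p3, s, w0, w3, a1, a2, a3, b1, b2, b3⟩ := hPt x hx.1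
          obtain ⟨q1, q2, q3, s', w0', w3', c1, c2, c3, d1, d2, d3⟩ := hPt y hy.1
          have hc := hCp x hx.1 y hy.1 hxy
          unfold Cp at hc
          rcases hc with h | h | h | h | h | h <;> omega
    · omega
  have tot : ∑ x ∈ Z, w x ≤ ∑ x ∈ Z.filter (fun x => M + 1 ≤ 2 * e1 x ∨ x = z), w x +
      ∑ x ∈ Z.filter (fun x => M + 1 ≤ 2 * e2 x), w x +
      ∑ x ∈ Z.filter (fun x => M + 1 ≤ 2 * e3 x), w x := by
    rw [Finset.sum_filter, Finset.sum_filter, Finset.sum_filter, ← Finset.sum_add_distrib,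
      ← Finset.sum_add_distrib]
    apply Finset.sum_le_sum
    intro x hx
    have w0 := (hPt x hx).w0
    by_cases hxz : x = z
    · rw [if_pos (Or.inr hxz)]
      split_ifs <;> omega
    · rcases big x hx hxz with h | h | h
      · rw [if_pos (Or.inl h)]
        split_ifs <;> omega
      · rw [if_pos h]
        split_ifs <;> omega
      · rw [if_pos h]
        split_ifs <;> omega
  omega

/-- the packing lemma -/
theorem comb {ι : Type*} [DecidableEq ι] (M : ℤ) (hM : 4 ≤ M) (Z : Finset ι)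
    (e1 e2 e3 w : ι → ℤ)
    (hPt : ∀ x ∈ Z, Pt M (e1 x) (e2 x) (e3 x) (w x))
    (hCp : ∀ x ∈ Z, ∀ y ∈ Z, x ≠ y → Cp M (e1 x) (e2 x) (e3 x) (e1 y) (e2 y) (e3 y)) :
    ∑ x ∈ Z, w x ≤ 2 * M - 7 := by
  have Cp12 : ∀ x ∈ Z, ∀ y ∈ Z, x ≠ y → Cp M (e2 x) (e1 x) (e3 x) (e2 y) (e1 y) (e3 y) := by
    intro x hx y hy hxy
    have := hCp x hx y hy hxy
    unfold Cp at this ⊢
    rcases this with h | h | h | h | h | h <;> omega
  have Cp13 : ∀ x ∈ Z, ∀ y ∈ Z, x ≠ y → Cp M (e3 x) (e2 x) (e1 x) (e3 y) (e2 y) (e1 y) := by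
    intro x hx y hy hxy
    have := hCp x hx y hy hxy
    unfold Cp at this ⊢
    rcases this with h | h | h | h | h | h <;> omega
  by_cases hz : ∃ z ∈ Z, 2 * e1 z ≤ M ∧ 2 * e2 z ≤ M ∧ 2 * e3 z ≤ M
  · obtain ⟨z, hz, z1, z2, z3⟩ := hz
    by_cases h1 : e2 z ≤ e1 z ∧ e3 z ≤ e1 z
    · exact comb_z M hM Z e1 e2 e3 w hPt hCp z hz z1 h1.1 h1.2
    · by_cases h2 : e1 z ≤ e2 z ∧ e3 z ≤ e2 z
      · exact comb_z M hM Z e2 e1 e3 w (fun x hx => (hPt x hx).r12) Cp12 z hz z2 h2.1 h2.2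
      · exact comb_z M hM Z e3 e2 e1 w (fun x hx => (hPt x hx).r13) Cp13 z hz z3 (by omega)
          (by omega)
  · push Not at hz
    have S1 := chain_aux M hM Z e1 e2 e3 w hPt hCp ((M + 2) / 2) (by omega)
      (fun x _ h => by omega)
    have S2 := chain_aux M hM Z e2 e1 e3 w (fun x hx => (hPt x hx).r12) Cp12 ((M + 2) / 2)
      (by omega) (fun x _ h => by omega)
    have S3 := chain_aux M hM Z e3 e2 e1 w (fun x hx => (hPt x hx).r13) Cp13 ((M + 2) / 2)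
      (by omega) (fun x _ h => by omega)
    have tot : ∑ x ∈ Z, w x ≤ ∑ x ∈ Z.filter (fun x => M + 1 ≤ 2 * e1 x), w x +
        ∑ x ∈ Z.filter (fun x => M + 1 ≤ 2 * e2 x), w x +
        ∑ x ∈ Z.filter (fun x => M + 1 ≤ 2 * e3 x), w x := by
      rw [Finset.sum_filter, Finset.sum_filter, Finset.sum_filter, ← Finset.sum_add_distrib,
        ← Finset.sum_add_distrib]
      apply Finset.sum_le_sum
      intro x hx
      have w0 := (hPt x hx).w0
      have hb : M + 1 ≤ 2 * e1 x ∨ M + 1 ≤ 2 * e2 x ∨ M + 1 ≤ 2 * e3 x := by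
        by_contra hcon
        push Not at hcon
        have := hz x hx (by omega) (by omega)
        omega
      rcases hb with h | h | h
      · rw [if_pos h]
        split_ifs <;> omega
      · rw [if_pos h]
        split_ifs <;> omega
      · rw [if_pos h]
        split_ifs <;> omega
    omega

end Pool.Agent.TH835.G5
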