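import Mathlib

set_option autoImplicit false

namespace Pool.Agent.TH835.G5

/-- orientation determinant: positive iff `r` is to the left of the directed line `p → q` -/
def o (p q r : ℝ × ℝ) : ℝ := (q.1 - p.1) * (r.2 - p.2) - (q.2 - p.2) * (r.1 - p.1)

lemma o_swap (p q r : ℝ × ℝ) : o p r q = - o p q r := by unfold o; ring
lemma o_rot (p q r : ℝ × ℝ) : o q r p = o p q r := by unfold o; ring
lemma o_rev (p q r : ℝ × ℝ) : o q p r = - o p q r := by unfold o; ring
@[simp] lemma o_self1 (p r : ℝ × ℝ) : o p p r = 0 := by unfold o; ring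
@[simp] lemma o_self2 (p q : ℝ × ℝ) : o p q q = 0 := by unfold o; ring
@[simp] lemma o_self3 (p q : ℝ × ℝ) : o p q p = 0 := by unfold o; ring

/-- three-term Grassmann-Pluecker relation -/
lemma gp4 (x p q r s : ℝ × ℝ) :
    o x p q * o x r s - o x p r * o x q s + o x p s * o x q r = 0 := by unfold o; ring

/-- affine dependence of four points -/
lemma aff4 (p q r s : ℝ × ℝ) : o q r s - o p r s + o p q s - o p q r = 0 := by unfold o; ring

/-- general position of a finite set -/
def GPos (A : Finset (ℝ × ℝ)) : Prop :=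
  ∀ a ∈ A, ∀ b ∈ A, ∀ c ∈ A, a ≠ b → a ≠ c → b ≠ c → o a b c ≠ 0

lemma GPos.mono {A B : Finset (ℝ × ℝ)} (h : GPos A) (hB : B ⊆ A) : GPos B :=
  fun a ha b hb c hc => h a (hB ha) b (hB hb) c (hB hc)

/-- `x` is strictly separated from the rest of `S` by a linear functional -/
def Ex (S : Finset (ℝ × ℝ)) (x : ℝ × ℝ) : Prop :=
  ∃ α β : ℝ, ∀ y ∈ S, y ≠ x → α * x.1 + β * x.2 < α * y.1 + β * y.2

lemma Ex.mono {S T : Finset (ℝ × ℝ)} {x : ℝ × ℝ} (h : Ex T x) (hS : S ⊆ T) : Ex S x := by
  obtain ⟨α, β, h⟩ := h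
  exact ⟨α, β, fun y hy hyx => h y (hS hy) hyx⟩

/-- every set of `Ex` points of `S` has at most four elements -/
def No5 (S : Finset (ℝ × ℝ)) : Prop := ∀ T ⊆ S, (∀ x ∈ T, Ex S x) → T.card ≤ 4

lemma No5.five {S : Finset (ℝ × ℝ)} (h : No5 S) {a b c d e : ℝ × ℝ}
    (ha : a ∈ S) (hb : b ∈ S) (hc : c ∈ S) (hd : d ∈ S) (he : e ∈ S)
    (ea : Ex S a) (eb : Ex S b) (ec : Ex S c) (ed : Ex S d) (ee : Ex S e)
    (hab : a ≠ b) (hac : a ≠ c) (had : a ≠ d) (hae : a ≠ e)
    (hbc : b ≠ c) (hbd : b ≠ d) (hbe : b ≠ e)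
    (hcd : c ≠ d) (hce : c ≠ e) (hde : d ≠ e) : False := by
  classical
  have h1 := h {a, b, c, d, e} (by
    intro z hz
    simp only [Finset.mem_insert, Finset.mem_singleton] at hz
    rcases hz with rfl | rfl | rfl | rfl | rfl <;> assumption) (by
    intro z hz
    simp only [Finset.mem_insert, Finset.mem_singleton] at hz
    rcases hz with rfl | rfl | rfl | rfl | rfl <;> assumption)
  have h2 : ({a, b, c, d, e} : Finset (ℝ × ℝ)).card = 5 := by
    rw [Finset.card_insert_of_notMem, Finset.card_insert_of_notMem, Finset.card_insert_of_notMem,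
      Finset.card_insert_of_notMem, Finset.card_singleton] <;> simp [*]
  omega

/-- an `Ex` point is an extreme point of the convex hull -/
lemma Ex.extreme {S : Finset (ℝ × ℝ)} {x : ℝ × ℝ} (hx : x ∈ S) (h : Ex S x) :
    x ∈ Set.extremePoints ℝ (convexHull ℝ (S : Set (ℝ × ℝ))) := by
  obtain ⟨α, β, h⟩ := h
  set f : ℝ × ℝ → ℝ := fun z => α * z.1 + β * z.2 with hf
  have hK : convexHull ℝ (S : Set (ℝ × ℝ)) ⊆ {z | f x < f z ∨ z = x} := by
    apply convexHull_min
    · intro z hz
      by_cases hzx : z = x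
      · exact Or.inr hzx
      · exact Or.inl (h z hz hzx)
    · intro u hu v hv s t hs ht hst
      have hcomb : f (s • u + t • v) = s * f u + t * f v := by
        simp only [hf, Prod.fst_add, Prod.snd_add, Prod.smul_fst, Prod.smul_snd, smul_eq_mul]; ring
      have hsx : f x = s * f x + t * f x := by rw [← add_mul, hst, one_mul]
      rcases hu with hu | rfl
      · rcases hv with hv | rfl
        · left
          rw [hcomb]
          rcases hs.eq_or_lt with hs0 | hs0
          · have ht1 : t = 1 := by linarith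
            rw [← hs0, ht1]; linarith
          · nlinarith
        · rcases hs.eq_or_lt with hs0 | hs0
          · right
            have ht1 : t = 1 := by linarith
            rw [← hs0, ht1]; simp
          · left
            rw [hcomb]; nlinarith
      · rcases hv with hv | rfl
        · rcases ht.eq_or_lt with ht0 | ht0
          · right
            have hs1 : s = 1 := by linarith
            rw [← ht0, hs1]; simp
          · left
            rw [hcomb]; nlinarith
        · right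
          rw [← add_smul, hst, one_smul]
  rw [mem_extremePoints]
  refine ⟨subset_convexHull ℝ _ hx, ?_⟩
  intro u hu v hv huv
  obtain ⟨s, t, hs, ht, hst, hx'⟩ := huv
  have hcomb : f (s • u + t • v) = s * f u + t * f v := by
    simp only [hf, Prod.fst_add, Prod.snd_add, Prod.smul_fst, Prod.smul_snd, smul_eq_mul]; ring
  rw [hx'] at hcomb
  have hsx : f x = s * f x + t * f x := by rw [← add_mul, hst, one_mul]
  have hu' := hK hu
  have hv' := hK hv
  rcases hu' with hu1 | hu1
  · exfalso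
    rcases hv' with hv1 | hv1
    · nlinarith
    · rw [hv1] at hcomb; nlinarith
  · rcases hv' with hv1 | hv1
    · exfalso
      rw [hu1] at hcomb; nlinarith
    · exact ⟨hu1, hv1⟩

/-- a set of Ex-points of size ≥ 5 gives `5 ≤ ncard` of extreme points -/
lemma five_le_ncard {S T : Finset (ℝ × ℝ)} (hT : T ⊆ S) (h : ∀ x ∈ T, Ex S x) (h5 : 5 ≤ T.card) :
    5 ≤ (Set.extremePoints ℝ (convexHull ℝ (S : Set (ℝ × ℝ)))).ncard := by
  have hsub : (T : Set (ℝ × ℝ)) ⊆ Set.extremePoints ℝ (convexHull ℝ (S : Set (ℝ × ℝ))) := by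
    intro x hx
    exact (h x hx).extreme (hT hx)
  have hfin : (Set.extremePoints ℝ (convexHull ℝ (S : Set (ℝ × ℝ)))).Finite :=
    S.finite_toSet.subset extremePoints_convexHull_subset
  have := Set.ncard_le_ncard hsub hfin
  rw [Set.ncard_coe_finset] at this
  omega

/-- small tilts of a nonnegative functional -/
lemma tilt (S : Finset (ℝ × ℝ)) (x : ℝ × ℝ) (g h : ℝ × ℝ → ℝ)
    (H : ∀ z ∈ S, z ≠ x → 0 < g z ∨ (g z = 0 ∧ 0 < h z)) :
    ∃ ε : ℝ, 0 < ε ∧ ∀ z ∈ S, z ≠ x → 0 < g z + ε * h z := by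
  have key : ∀ z ∈ S, ∀ᶠ ε in nhdsWithin (0 : ℝ) (Set.Ioi 0), z ≠ x → 0 < g z + ε * h z := by
    intro z hz
    by_cases hzx : z = x
    · exact Filter.Eventually.of_forall fun ε h => absurd hzx h
    rcases H z hz hzx with hg | ⟨hg, hh⟩
    · have hc : Filter.Tendsto (fun ε : ℝ => g z + ε * h z) (nhdsWithin 0 (Set.Ioi 0))
          (nhds (g z + 0 * h z)) := by
        apply Filter.Tendsto.mono_left _ nhdsWithin_le_nhds
        exact (continuous_const.add (continuous_id.mul continuous_const)).tendsto 0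
      have : ∀ᶠ ε in nhdsWithin (0 : ℝ) (Set.Ioi 0), 0 < g z + ε * h z :=
        hc.eventually (lt_mem_nhds (by simpa using hg))
      exact this.mono fun ε hε _ => hε
    · filter_upwards [self_mem_nhdsWithin] with ε hε _
      rw [hg, zero_add]
      exact mul_pos hε hh
  have h2 : ∀ᶠ ε in nhdsWithin (0 : ℝ) (Set.Ioi 0), ∀ z ∈ S, z ≠ x → 0 < g z + ε * h z :=
    (Filter.eventually_all_finset S).2 key
  obtain ⟨ε, h3, h4⟩ := (h2.and self_mem_nhdsWithin).exists
  exact ⟨ε, h4, h3⟩

lemma sq_dist_pos {x z : ℝ × ℝ} (h : z ≠ x) : 0 < (z.1 - x.1) ^ 2 + (z.2 - x.2) ^ 2 := by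
  by_contra hc
  push Not at hc
  apply h
  have h1 : (z.1 - x.1) ^ 2 = 0 := by nlinarith [sq_nonneg (z.1 - x.1), sq_nonneg (z.2 - x.2)]
  have h2 : (z.2 - x.2) ^ 2 = 0 := by nlinarith [sq_nonneg (z.1 - x.1), sq_nonneg (z.2 - x.2)]
  have h1' : z.1 - x.1 = 0 := by simpa using h1
  have h2' : z.2 - x.2 = 0 := by simpa using h2
  exact Prod.ext (by linarith) (by linarith)

/-- hull edge certificate (all others on the left of `x → y`) -/
lemma Ex_of_edge_left {S : Finset (ℝ × ℝ)} {x y : ℝ × ℝ}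
    (h : ∀ z ∈ S, z ≠ x → z ≠ y → 0 < o x y z) : Ex S x := by
  obtain ⟨ε, hε, H⟩ := tilt S x (fun z => o x y z)
    (fun z => (y.1 - x.1) * (z.1 - x.1) + (y.2 - x.2) * (z.2 - x.2)) (by
      intro z hz hzx
      by_cases hzy : z = y
      · right
        subst hzy
        exact ⟨o_self2 _ _, by nlinarith [sq_dist_pos hzx]⟩
      · left; exact h z hz hzx hzy)
  refine ⟨-(y.2 - x.2) + ε * (y.1 - x.1), (y.1 - x.1) + ε * (y.2 - x.2), ?_⟩
  intro z hz hzx
  have := H z hz hzx
  simp only [o] at this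
  nlinarith

/-- hull edge certificate (all others on the right of `x → y`) -/
lemma Ex_of_edge_right {S : Finset (ℝ × ℝ)} {x y : ℝ × ℝ}
    (h : ∀ z ∈ S, z ≠ x → z ≠ y → o x y z < 0) : Ex S x := by
  obtain ⟨ε, hε, H⟩ := tilt S x (fun z => - o x y z)
    (fun z => (y.1 - x.1) * (z.1 - x.1) + (y.2 - x.2) * (z.2 - x.2)) (by
      intro z hz hzx
      by_cases hzy : z = y
      · right
        subst hzy
        refine ⟨by simp, ?_⟩
        show (0 : ℝ) < (z.1 - x.1) * (z.1 - x.1) + (z.2 - x.2) * (z.2 - x.2)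
        nlinarith [sq_dist_pos hzx]
      · left; show (0 : ℝ) < - o x y z
        linarith [h z hz hzx hzy])
  refine ⟨(y.2 - x.2) + ε * (y.1 - x.1), -(y.1 - x.1) + ε * (y.2 - x.2), ?_⟩
  intro z hz hzx
  have := H z hz hzx
  simp only [o] at this
  nlinarith

lemma exists_Ex {S : Finset (ℝ × ℝ)} (hS : S.Nonempty) : ∃ x ∈ S, Ex S x := by
  classical
  obtain ⟨m, hm, hmin⟩ := S.exists_min_image (fun z => z.1) hS
  have hT : (S.filter (fun z => z.1 = m.1)).Nonempty := ⟨m, by simp [hm]⟩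
  obtain ⟨x, hx, hxmin⟩ := (S.filter (fun z => z.1 = m.1)).exists_min_image (fun z => z.2) hT
  rw [Finset.mem_filter] at hx
  refine ⟨x, hx.1, ?_⟩
  obtain ⟨ε, hε, H⟩ := tilt S x (fun z => z.1 - x.1) (fun z => z.2 - x.2) (by
    intro z hz hzx
    have h1 : m.1 ≤ z.1 := hmin z hz
    rcases h1.eq_or_lt with h2 | h2
    · right
      refine ⟨by show z.1 - x.1 = 0; rw [hx.2, ← h2]; ring, ?_⟩
      have h3 := hxmin z (by simp [hz, h2])
      rcases h3.eq_or_lt with h4 | h4
      · exact absurd (Prod.ext (by rw [hx.2, h2]) h4.symm) hzx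
      · show (0:ℝ) < z.2 - x.2
        linarith
    · left
      show (0:ℝ) < z.1 - x.1
      rw [hx.2]; linarith)
  refine ⟨1, ε, ?_⟩
  intro z hz hzx
  have := H z hz hzx
  nlinarith

/-- transitivity of the angular order in an open half-plane -/
lemma o_trans {x p q r : ℝ × ℝ} {α β : ℝ}
    (hp : α * x.1 + β * x.2 < α * p.1 + β * p.2)
    (hq : α * x.1 + β * x.2 < α * q.1 + β * q.2)
    (hr : α * x.1 + β * x.2 < α * r.1 + β * r.2)
    (h1 : 0 < o x p q) (h2 : 0 < o x q r) : 0 < o x p r := by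
  have key : o x p r * (α * (q.1 - x.1) + β * (q.2 - x.2)) =
      o x p q * (α * (r.1 - x.1) + β * (r.2 - x.2)) +
      o x q r * (α * (p.1 - x.1) + β * (p.2 - x.2)) := by unfold o; ring
  have hp' : 0 < α * (p.1 - x.1) + β * (p.2 - x.2) := by linarith
  have hq' : 0 < α * (q.1 - x.1) + β * (q.2 - x.2) := by linarith
  have hr' : 0 < α * (r.1 - x.1) + β * (r.2 - x.2) := by linarith
  have : 0 < o x p r * (α * (q.1 - x.1) + β * (q.2 - x.2)) := by
    rw [key]; positivity
  exact (pos_iff_pos_of_mul_pos this).2 hq'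

/-- next hull vertex (counterclockwise) -/
lemma exists_next {S : Finset (ℝ × ℝ)} {x : ℝ × ℝ} (hx : Ex S x)
    (hg : ∀ y ∈ S, ∀ z ∈ S, y ≠ x → z ≠ x → y ≠ z → o x y z ≠ 0)
    (hne : ∃ y ∈ S, y ≠ x) :
    ∃ y ∈ S, y ≠ x ∧ ∀ w ∈ S, w ≠ x → w ≠ y → 0 < o x y w := by
  classical
  obtain ⟨α, β, hf⟩ := hx
  obtain ⟨y0, hy0, hy0x⟩ := hne
  have key : ∀ W : Finset (ℝ × ℝ), W.Nonempty → W ⊆ S.erase x →
      ∃ y ∈ W, ∀ w ∈ W, w ≠ y → 0 < o x y w := by
    intro W hW
    induction hW using Finset.Nonempty.cons_induction with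
    | singleton a =>
      intro _
      exact ⟨a, by simp, fun w hw hwa => absurd (by simpa using hw) hwa⟩
    | cons a s has hs ih =>
      intro hsub
      have hsub' : s ⊆ S.erase x := fun z hz => hsub (by simp [hz])
      have haS : a ∈ S.erase x := hsub (by simp)
      obtain ⟨y, hy, hyw⟩ := ih hsub'
      have hyS : y ∈ S.erase x := hsub' hy
      have hay : a ≠ y := fun h => has (h ▸ hy)
      rw [Finset.mem_erase] at haS hyS
      rcases lt_trichotomy (o x y a) 0 with h | h | h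
      · refine ⟨a, by simp, ?_⟩
        intro w hw hwa
        have hws : w ∈ s := by
          rw [Finset.mem_cons] at hw
          rcases hw with hw | hw
          · exact absurd hw hwa
          · exact hw
        have h' : 0 < o x a y := by rw [o_swap]; linarith
        by_cases hwy : w = y
        · rw [hwy]; exact h'
        · have hwS := Finset.mem_erase.1 (hsub' hws)
          exact o_trans (hf a haS.2 haS.1) (hf y hyS.2 hyS.1) (hf w hwS.2 hwS.1) h' (hyw w hws hwy)
      · exact absurd h (hg y hyS.2 a haS.2 hyS.1 haS.1 hay.symm)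
      · refine ⟨y, by simp [hy], ?_⟩
        intro w hw hwy
        rw [Finset.mem_cons] at hw
        rcases hw with hw | hw
        · rw [hw]; exact h
        · exact hyw w hw hwy
  obtain ⟨y, hy, hyw⟩ := key (S.erase x) ⟨y0, by simp [hy0, hy0x]⟩ subset_rfl
  rw [Finset.mem_erase] at hy
  exact ⟨y, hy.2, hy.1, fun w hw hwx hwy => hyw w (by simp [hw, hwx]) hwy⟩

/-- previous hull vertex (counterclockwise) -/
lemma exists_prev {S : Finset (ℝ × ℝ)} {x : ℝ × ℝ} (hx : Ex S x)
    (hg : ∀ y ∈ S, ∀ z ∈ S, y ≠ x → z ≠ x → y ≠ z → o x y z ≠ 0)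
    (hne : ∃ y ∈ S, y ≠ x) :
    ∃ y ∈ S, y ≠ x ∧ ∀ w ∈ S, w ≠ x → w ≠ y → o x y w < 0 := by
  classical
  obtain ⟨α, β, hf⟩ := hx
  obtain ⟨y0, hy0, hy0x⟩ := hne
  have key : ∀ W : Finset (ℝ × ℝ), W.Nonempty → W ⊆ S.erase x →
      ∃ y ∈ W, ∀ w ∈ W, w ≠ y → o x y w < 0 := by
    intro W hW
    induction hW using Finset.Nonempty.cons_induction with
    | singleton a =>
      intro _
      exact ⟨a, by simp, fun w hw hwa => absurd (by simpa using hw) hwa⟩
    | cons a s has hs ih =>
      intro hsub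
      have hsub' : s ⊆ S.erase x := fun z hz => hsub (by simp [hz])
      have haS : a ∈ S.erase x := hsub (by simp)
      obtain ⟨y, hy, hyw⟩ := ih hsub'
      have hyS : y ∈ S.erase x := hsub' hy
      have hay : a ≠ y := fun h => has (h ▸ hy)
      rw [Finset.mem_erase] at haS hyS
      rcases lt_trichotomy (o x y a) 0 with h | h | h
      · refine ⟨y, by simp [hy], ?_⟩
        intro w hw hwy
        rw [Finset.mem_cons] at hw
        rcases hw with hw | hw
        · rw [hw]; exact h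
        · exact hyw w hw hwy
      · exact absurd h (hg y hyS.2 a haS.2 hyS.1 haS.1 hay.symm)
      · refine ⟨a, by simp, ?_⟩
        intro w hw hwa
        have hws : w ∈ s := by
          rw [Finset.mem_cons] at hw
          rcases hw with hw | hw
          · exact absurd hw hwa
          · exact hw
        by_cases hwy : w = y
        · rw [hwy, o_swap]; linarith
        · have hwS := Finset.mem_erase.1 (hsub' hws)
          have h2 := hyw w hws hwy
          have h3 : 0 < o x w y := by rw [o_swap]; linarith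
          have := o_trans (hf w hwS.2 hwS.1) (hf y hyS.2 hyS.1) (hf a haS.2 haS.1) h3 h
          rw [o_swap]; linarith
  obtain ⟨y, hy, hyw⟩ := key (S.erase x) ⟨y0, by simp [hy0, hy0x]⟩ subset_rfl
  rw [Finset.mem_erase] at hy
  exact ⟨y, hy.2, hy.1, fun w hw hwx hwy => hyw w (by simp [hw, hwx]) hwy⟩

/-- an `Ex` point is not strictly inside a triangle -/
lemma Ex.not_in_tri {S : Finset (ℝ × ℝ)} {x p q r : ℝ × ℝ} (hx : Ex S x)
    (hp : p ∈ S) (hq : q ∈ S) (hr : r ∈ S)
    (h1 : 0 < o p q x) (h2 : 0 < o q r x) (h3 : 0 < o r p x) : False := by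
  obtain ⟨α, β, hf⟩ := hx
  have npx : p ≠ x := by rintro rfl; simp at h1
  have nqx : q ≠ x := by rintro rfl; simp at h1
  have nrx : r ≠ x := by rintro rfl; simp at h2
  have hp' := hf p hp npx
  have hq' := hf q hq nqx
  have hr' := hf r hr nrx
  have key : o p q x * (α * (r.1 - x.1) + β * (r.2 - x.2)) +
      o q r x * (α * (p.1 - x.1) + β * (p.2 - x.2)) +
      o r p x * (α * (q.1 - x.1) + β * (q.2 - x.2)) = 0 := by unfold o; ring
  have a1 : 0 < α * (p.1 - x.1) + β * (p.2 - x.2) := by linarith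
  have a2 : 0 < α * (q.1 - x.1) + β * (q.2 - x.2) := by linarith
  have a3 : 0 < α * (r.1 - x.1) + β * (r.2 - x.2) := by linarith
  have := mul_pos h1 a3
  have := mul_pos h2 a1
  have := mul_pos h3 a2
  linarith

end Pool.Agent.TH835.G5
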