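import Mathlib
import Pool.Agent.TH835.G5.Geo

set_option autoImplicit false

namespace Pool.Agent.TH835.G5

/-- points of `S` strictly to the left of `p → q` -/
noncomputable def L (S : Finset (ℝ × ℝ)) (p q : ℝ × ℝ) : Finset (ℝ × ℝ) :=
  S.filter (fun z => 0 < o p q z)

lemma mem_L {S : Finset (ℝ × ℝ)} {p q z : ℝ × ℝ} : z ∈ L S p q ↔ z ∈ S ∧ 0 < o p q z := by
  unfold L; rw [Finset.mem_filter]

lemma L_lt_of {Q : Finset (ℝ × ℝ)} {x p p' : ℝ × ℝ} (hx : Ex Q x)
    (hp : p ∈ Q) (hp' : p' ∈ Q) (npx : p ≠ x) (npx' : p' ≠ x) (h : 0 < o x p p') :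
    (L Q x p').card < (L Q x p).card := by
  obtain ⟨α, β, hf⟩ := hx
  apply Finset.card_lt_card
  rw [Finset.ssubset_iff_of_subset]
  · refine ⟨p', mem_L.2 ⟨hp', h⟩, ?_⟩
    rw [mem_L]; rintro ⟨_, h2⟩
    simp at h2
  · intro z hz
    rw [mem_L] at hz ⊢
    have hzx : z ≠ x := by rintro rfl; simp at hz
    exact ⟨hz.1, o_trans (hf p hp npx) (hf p' hp' npx') (hf z hz.1 hzx) h hz.2⟩

lemma L_lt_of' {Q : Finset (ℝ × ℝ)} {x p p' : ℝ × ℝ} (hx : Ex Q x)
    (hp : p ∈ Q) (hp' : p' ∈ Q) (npx : p ≠ x) (npx' : p' ≠ x) (h : 0 < o x p p') :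
    (L Q p x).card < (L Q p' x).card := by
  obtain ⟨α, β, hf⟩ := hx
  apply Finset.card_lt_card
  rw [Finset.ssubset_iff_of_subset]
  · refine ⟨p, mem_L.2 ⟨hp, ?_⟩, ?_⟩
    · rw [o_rev, o_swap]; linarith
    · rw [mem_L]; rintro ⟨_, h2⟩
      simp at h2
  · intro z hz
    rw [mem_L] at hz ⊢
    have hzx : z ≠ x := by rintro rfl; simp at hz
    have h1 : 0 < o x z p := by
      have := hz.2
      rw [o_rev, o_swap] at this
      linarith
    have h2 := o_trans (hf z hz.1 hzx) (hf p hp npx) (hf p' hp' npx') h1 h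
    refine ⟨hz.1, ?_⟩
    rw [o_rev, o_swap]; linarith

lemma rankL {Q : Finset (ℝ × ℝ)} {x : ℝ × ℝ} (hx : Ex Q x) (hxQ : x ∈ Q) (hg : GPos Q) (k : ℕ) :
    ((Q.erase x).filter (fun p => (L Q x p).card < k)).card ≤ k := by
  have := Finset.card_le_card_of_injOn (s := (Q.erase x).filter (fun p => (L Q x p).card < k))
    (t := Finset.range k) (fun p => (L Q x p).card) (by
      intro p hp
      have hp' := Finset.mem_coe.1 hp
      rw [Finset.mem_filter] at hp'
      simpa using hp'.2) (by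
      intro p hp p' hp' heq
      have h1 := Finset.mem_erase.1 (Finset.mem_filter.1 (Finset.mem_coe.1 hp)).1
      have h2 := Finset.mem_erase.1 (Finset.mem_filter.1 (Finset.mem_coe.1 hp')).1
      by_contra hne
      rcases lt_trichotomy (o x p p') 0 with h | h | h
      · have h' : 0 < o x p' p := by rw [o_swap]; linarith
        have := L_lt_of hx h2.2 h1.2 h2.1 h1.1 h'
        simp only at heq
        omega
      · exact hg x hxQ p h1.2 p' h2.2 (Ne.symm h1.1) (Ne.symm h2.1) hne h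
      · have := L_lt_of hx h1.2 h2.2 h1.1 h2.1 h
        simp only at heq
        omega)
  simpa using this

lemma rankR {Q : Finset (ℝ × ℝ)} {x : ℝ × ℝ} (hx : Ex Q x) (hxQ : x ∈ Q) (hg : GPos Q) (k : ℕ) :
    ((Q.erase x).filter (fun p => (L Q p x).card < k)).card ≤ k := by
  have := Finset.card_le_card_of_injOn (s := (Q.erase x).filter (fun p => (L Q p x).card < k))
    (t := Finset.range k) (fun p => (L Q p x).card) (by
      intro p hp
      have hp' := Finset.mem_coe.1 hp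
      rw [Finset.mem_filter] at hp'
      simpa using hp'.2) (by
      intro p hp p' hp' heq
      have h1 := Finset.mem_erase.1 (Finset.mem_filter.1 (Finset.mem_coe.1 hp)).1
      have h2 := Finset.mem_erase.1 (Finset.mem_filter.1 (Finset.mem_coe.1 hp')).1
      by_contra hne
      rcases lt_trichotomy (o x p p') 0 with h | h | h
      · have h' : 0 < o x p' p := by rw [o_swap]; linarith
        have := L_lt_of' hx h2.2 h1.2 h2.1 h1.1 h'
        simp only at heq
        omega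
      · exact hg x hxQ p h1.2 p' h2.2 (Ne.symm h1.1) (Ne.symm h2.1) hne h
      · have := L_lt_of' hx h1.2 h2.2 h1.1 h2.1 h
        simp only at heq
        omega)
  simpa using this

/-- adjacency alternative -/
lemma adj_alt {Q : Finset (ℝ × ℝ)} {x p q : ℝ × ℝ} {k : ℕ} (hx : Ex Q x) (hxQ : x ∈ Q)
    (hg : GPos Q) (hyp : ∀ S ⊆ Q, Q.card < S.card + (k + 1) → No5 S)
    (hp : p ∈ Q) (hq : q ∈ Q) (npx : p ≠ x) (nqx : q ≠ x) (npq : p ≠ q)
    (hr : o p q x < 0) (hk : (L Q p q).card = k) :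
    (∀ z ∈ Q, 0 < o x p z → 0 < o p q z) ∨ (∀ z ∈ Q, 0 < o q x z → 0 < o p q z) := by
  classical
  by_contra hcon
  push Not at hcon
  obtain ⟨⟨z1, hz1, h11, h12⟩, ⟨z2, hz2, h21, h22⟩⟩ := hcon
  set C := Q.filter (fun z => ¬ 0 < o p q z) with hC
  have hCQ : C ⊆ Q := Finset.filter_subset _ _
  have hcard : C.card + k = Q.card := by
    have := Finset.card_filter_add_card_filter_not (s := Q) (fun z => 0 < o p q z)
    unfold L at hk
    rw [hC]; omega
  have h5 : No5 C := hyp C hCQ (by omega)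
  have memC : ∀ z, z ∈ C ↔ z ∈ Q ∧ ¬ 0 < o p q z := by intro z; rw [hC, Finset.mem_filter]
  have hpC : p ∈ C := (memC p).2 ⟨hp, by simp⟩
  have hqC : q ∈ C := (memC q).2 ⟨hq, by simp⟩
  have hxC : x ∈ C := (memC x).2 ⟨hxQ, by linarith⟩
  have hz1C : z1 ∈ C := (memC z1).2 ⟨hz1, by linarith⟩
  have hz2C : z2 ∈ C := (memC z2).2 ⟨hz2, by linarith⟩
  have hgC : ∀ y ∈ C, ∀ z ∈ C, y ≠ x → z ≠ x → y ≠ z → o x y z ≠ 0 :=
    fun y hy z hz h1 h2 h3 => hg x hxQ y (hCQ hy) z (hCQ hz) h1.symm h2.symm h3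
  have hxC' : Ex C x := hx.mono hCQ
  obtain ⟨u, huC, hux, hu⟩ := exists_prev hxC' hgC ⟨p, hpC, npx⟩
  obtain ⟨v, hvC, hvx, hv⟩ := exists_next hxC' hgC ⟨p, hpC, npx⟩
  have z1x : z1 ≠ x := by rintro rfl; simp at h11
  have z1p : z1 ≠ p := by rintro rfl; simp at h11
  have z2x : z2 ≠ x := by rintro rfl; simp at h21
  have z2q : z2 ≠ q := by rintro rfl; simp at h21
  have rot1 : o x p q = o p q x := by rw [← o_rot x p q]
  have rot2 : o x q p = - o p q x := by rw [o_swap, rot1]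
  have hup : u ≠ p := by
    rintro rfl
    have := hu z1 hz1C z1x z1p
    linarith
  have huq : u ≠ q := by
    rintro rfl
    have := hu p hpC npx hup.symm
    linarith
  have hvq : v ≠ q := by
    rintro rfl
    have h1 := hv z2 hz2C z2x z2q
    rw [o_rev] at h21
    linarith
  have hvp : v ≠ p := by
    rintro rfl
    have := hv q hqC nqx hvq.symm
    linarith
  have huv : u ≠ v := by
    rintro rfl
    have h1 := hu p hpC npx hup.symm
    have h2 := hv p hpC npx hvp.symm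
    linarith
  have side : ∀ z ∈ C, z ≠ p → z ≠ q → o p q z < 0 := by
    intro z hz h1 h2
    have hz' := (memC z).1 hz
    have h3 := hg p hp q hq z hz'.1 npq h1.symm h2.symm
    have h4 := hz'.2
    push Not at h4
    exact lt_of_le_of_ne h4 h3
  have eP : Ex C p := Ex_of_edge_right (y := q) side
  have eQ : Ex C q := Ex_of_edge_left (y := p) (fun z hz h1 h2 => by
    rw [o_rev]; linarith [side z hz h2 h1])
  have eU : Ex C u := Ex_of_edge_left (y := x) (fun z hz h1 h2 => by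
    rw [o_rev]; linarith [hu z hz h2 h1])
  have eV : Ex C v := Ex_of_edge_right (y := x) (fun z hz h1 h2 => by
    rw [o_rev]; linarith [hv z hz h2 h1])
  exact h5.five hpC hqC hxC huC hvC eP eQ hxC' eU eV npq npx hup.symm hvp.symm nqx huq.symm
    hvq.symm hux.symm hvx.symm huv

lemma o_trans_pos {x y a b c : ℝ × ℝ} (h1 : 0 < o x y a) (h2 : 0 < o x y b) (h3 : 0 < o x y c)
    (hab : 0 < o x a b) (hbc : 0 < o x b c) : 0 < o x a c := by
  have key := gp4 x y a b c
  have h4 : 0 < o x y b * o x a c := by nlinarith [mul_pos h1 hbc, mul_pos h3 hab]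
  exact (pos_iff_pos_of_mul_pos h4).1 h2

lemma o_trans_neg {x y a b c : ℝ × ℝ} (h1 : o x y a < 0) (h2 : o x y b < 0) (h3 : o x y c < 0)
    (hab : 0 < o x a b) (hbc : 0 < o x b c) : 0 < o x a c := by
  have key := gp4 x y a b c
  have h4 : 0 < (- o x y b) * o x a c := by
    nlinarith [mul_pos (neg_pos.2 h1) hbc, mul_pos (neg_pos.2 h3) hab]
  exact (pos_iff_pos_of_mul_pos h4).1 (neg_pos.2 h2)

lemma F1_lt {Q : Finset (ℝ × ℝ)} {x p q q' : ℝ × ℝ} (hxQ : x ∈ Q)
    (hg : GPos Q) (hp : p ∈ Q) (hq : q ∈ Q)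
    (npx : p ≠ x) (h1 : o p q x < 0) (h1' : o p q' x < 0)
    (P' : ∀ z ∈ Q, 0 < o x p z → 0 < o p q' z) (h : o p q q' < 0) :
    (L Q p q).card < (L Q p q').card := by
  apply Finset.card_lt_card
  rw [Finset.ssubset_iff_of_subset]
  · refine ⟨q, mem_L.2 ⟨hq, by rw [o_swap]; linarith⟩, ?_⟩
    rw [mem_L]; rintro ⟨_, h2⟩; simp at h2
  · intro z hz
    rw [mem_L] at hz ⊢
    refine ⟨hz.1, ?_⟩
    have hzx : z ≠ x := by rintro rfl; linarith [hz.2]
    have hzp : z ≠ p := by rintro rfl; simp at hz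
    rcases lt_trichotomy (o x p z) 0 with h2 | h2 | h2
    · have e1 : 0 < o p x z := by rw [o_rev]; linarith
      have e2 : 0 < o p x q := by rw [o_swap]; linarith
      have e3 : 0 < o p x q' := by rw [o_swap]; linarith
      have e4 : 0 < o p q' q := by rw [o_swap]; linarith
      exact o_trans_pos e3 e2 e1 e4 hz.2
    · exact absurd h2 (hg x hxQ p hp z hz.1 npx.symm hzx.symm hzp.symm)
    · exact P' z hz.1 h2

lemma F2_lt {Q : Finset (ℝ × ℝ)} {x p p' q : ℝ × ℝ} (hxQ : x ∈ Q)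
    (hg : GPos Q) (hp : p ∈ Q) (hq : q ∈ Q)
    (nqx : q ≠ x) (h1 : o p q x < 0) (h1' : o p' q x < 0)
    (P' : ∀ z ∈ Q, 0 < o q x z → 0 < o p' q z) (h : 0 < o q p p') :
    (L Q p q).card < (L Q p' q).card := by
  apply Finset.card_lt_card
  rw [Finset.ssubset_iff_of_subset]
  · refine ⟨p, mem_L.2 ⟨hp, by rw [← o_rot p' q p, o_rot]; rw [← o_rot]; exact h⟩, ?_⟩
    rw [mem_L]; rintro ⟨_, h2⟩; simp at h2
  · intro z hz
    rw [mem_L] at hz ⊢
    refine ⟨hz.1, ?_⟩
    have hzx : z ≠ x := by rintro rfl; linarith [hz.2]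
    have hzq : z ≠ q := by rintro rfl; simp at hz
    rcases lt_trichotomy (o q x z) 0 with h2 | h2 | h2
    · have e1 : o q x p < 0 := by rw [o_rot p q x]; exact h1
      have e2 : o q x p' < 0 := by rw [o_rot p' q x]; exact h1'
      have e3 : 0 < o q z p := by rw [o_rot p q z]; exact hz.2
      have := o_trans_neg h2 e1 e2 e3 h
      rw [o_rot p' q z] at this
      exact this
    · exact absurd h2 (hg q hq x hxQ z hz.1 nqx hzq.symm hzx.symm)
    · exact P' z hz.1 h2

open scoped Classical in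
lemma F_bound {Q : Finset (ℝ × ℝ)} {x : ℝ × ℝ} {k : ℕ} (hx : Ex Q x) (hxQ : x ∈ Q)
    (hg : GPos Q) (hyp : ∀ S ⊆ Q, Q.card < S.card + (k + 1) → No5 S) :
    ((Q ×ˢ Q).filter (fun pq => pq.1 ≠ x ∧ pq.2 ≠ x ∧ pq.1 ≠ pq.2 ∧ o pq.1 pq.2 x < 0 ∧
      (L Q pq.1 pq.2).card = k)).card ≤ 2 * (k + 1) := by
  set F := (Q ×ˢ Q).filter (fun pq => pq.1 ≠ x ∧ pq.2 ≠ x ∧ pq.1 ≠ pq.2 ∧ o pq.1 pq.2 x < 0 ∧
      (L Q pq.1 pq.2).card = k) with hF
  set F1 := F.filter (fun pq => ∀ z ∈ Q, 0 < o x pq.1 z → 0 < o pq.1 pq.2 z) with hF1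
  set F2 := F.filter (fun pq => ∀ z ∈ Q, 0 < o pq.2 x z → 0 < o pq.1 pq.2 z) with hF2
  have memF : ∀ pq : (ℝ × ℝ) × (ℝ × ℝ), pq ∈ F → pq.1 ∈ Q ∧ pq.2 ∈ Q ∧ pq.1 ≠ x ∧ pq.2 ≠ x ∧
      pq.1 ≠ pq.2 ∧ o pq.1 pq.2 x < 0 ∧ (L Q pq.1 pq.2).card = k := by
    intro pq h
    rw [hF, Finset.mem_filter, Finset.mem_product] at h
    exact ⟨h.1.1, h.1.2, h.2⟩
  have hsub : F ⊆ F1 ∪ F2 := by
    intro pq hpq
    obtain ⟨a1, a2, a3, a4, a5, a6, a7⟩ := memF pq hpq
    rcases adj_alt hx hxQ hg hyp a1 a2 a3 a4 a5 a6 a7 with h | h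
    · exact Finset.mem_union_left _ (Finset.mem_filter.2 ⟨hpq, h⟩)
    · exact Finset.mem_union_right _ (Finset.mem_filter.2 ⟨hpq, h⟩)
  have c1 : F1.card ≤ k + 1 := by
    refine le_trans ?_ (rankL hx hxQ hg (k + 1))
    apply Finset.card_le_card_of_injOn Prod.fst
    · intro pq hpq
      have hpq' := Finset.mem_filter.1 (Finset.mem_coe.1 hpq)
      obtain ⟨a1, a2, a3, a4, a5, a6, a7⟩ := memF pq hpq'.1
      rw [Finset.mem_coe, Finset.mem_filter, Finset.mem_erase]
      refine ⟨⟨a3, a1⟩, ?_⟩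
      have : L Q x pq.1 ⊆ L Q pq.1 pq.2 := by
        intro z hz
        rw [mem_L] at hz ⊢
        exact ⟨hz.1, hpq'.2 z hz.1 hz.2⟩
      have := Finset.card_le_card this
      omega
    · rintro ⟨p, q⟩ hpq ⟨p', q'⟩ hpq' heq
      have h1 := Finset.mem_filter.1 (Finset.mem_coe.1 hpq)
      have h2 := Finset.mem_filter.1 (Finset.mem_coe.1 hpq')
      obtain ⟨a1, a2, a3, a4, a5, a6, a7⟩ := memF _ h1.1
      obtain ⟨b1, b2, b3, b4, b5, b6, b7⟩ := memF _ h2.1
      simp only at heq a1 a2 a3 a4 a5 a6 a7 b1 b2 b3 b4 b5 b6 b7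
      subst heq
      by_contra hne
      have hqq : q ≠ q' := fun h => hne (by rw [h])
      rcases lt_trichotomy (o p q q') 0 with h | h | h
      · have := F1_lt hxQ hg a1 a2 a3 a6 b6 h2.2 h
        omega
      · exact hg p a1 q a2 q' b2 a5 b5 hqq h
      · have h' : o p q' q < 0 := by rw [o_swap]; linarith
        have := F1_lt hxQ hg b1 b2 b3 b6 a6 h1.2 h'
        omega
  have c2 : F2.card ≤ k + 1 := by
    refine le_trans ?_ (rankR hx hxQ hg (k + 1))
    apply Finset.card_le_card_of_injOn Prod.snd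
    · intro pq hpq
      have hpq' := Finset.mem_filter.1 (Finset.mem_coe.1 hpq)
      obtain ⟨a1, a2, a3, a4, a5, a6, a7⟩ := memF pq hpq'.1
      rw [Finset.mem_coe, Finset.mem_filter, Finset.mem_erase]
      refine ⟨⟨a4, a2⟩, ?_⟩
      have : L Q pq.2 x ⊆ L Q pq.1 pq.2 := by
        intro z hz
        rw [mem_L] at hz ⊢
        exact ⟨hz.1, hpq'.2 z hz.1 hz.2⟩
      have := Finset.card_le_card this
      omega
    · rintro ⟨p, q⟩ hpq ⟨p', q'⟩ hpq' heq
      have h1 := Finset.mem_filter.1 (Finset.mem_coe.1 hpq)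
      have h2 := Finset.mem_filter.1 (Finset.mem_coe.1 hpq')
      obtain ⟨a1, a2, a3, a4, a5, a6, a7⟩ := memF _ h1.1
      obtain ⟨b1, b2, b3, b4, b5, b6, b7⟩ := memF _ h2.1
      simp only at heq a1 a2 a3 a4 a5 a6 a7 b1 b2 b3 b4 b5 b6 b7
      subst heq
      by_contra hne
      have hpp : p ≠ p' := fun h => hne (by rw [h])
      rcases lt_trichotomy (o q p p') 0 with h | h | h
      · have h' : 0 < o q p' p := by rw [o_swap]; linarith
        have := F2_lt hxQ hg b1 b2 b4 b6 a6 h1.2 h'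
        omega
      · exact hg q a2 p a1 p' b1 a5.symm b5.symm hpp h
      · have := F2_lt hxQ hg a1 a2 a4 a6 b6 h2.2 h
        omega
  calc F.card ≤ (F1 ∪ F2).card := Finset.card_le_card hsub
    _ ≤ F1.card + F2.card := Finset.card_union_le _ _
    _ ≤ 2 * (k + 1) := by omega

open scoped Classical in
/-- number of directed edges with fewer than `k` points on the left -/
noncomputable def Ec (Q : Finset (ℝ × ℝ)) (k : ℕ) : ℕ :=
  ((Q ×ˢ Q).filter (fun pq => pq.1 ≠ pq.2 ∧ (L Q pq.1 pq.2).card < k)).card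

open scoped Classical in
theorem Ec_bound (k : ℕ) : ∀ Q : Finset (ℝ × ℝ), GPos Q →
    (∀ S ⊆ Q, Q.card < S.card + k → No5 S) → Ec Q k ≤ 2 * k * (k + 1) := by
  induction k with
  | zero =>
    intro Q _ _
    unfold Ec
    simp
  | succ k ih =>
    intro Q hg hyp
    rcases Q.eq_empty_or_nonempty with rfl | hne
    · unfold Ec; simp
    obtain ⟨x, hxQ, hx⟩ := exists_Ex hne
    have hsubQ : Q.erase x ⊆ Q := Finset.erase_subset _ _
    have hcQ : (Q.erase x).card + 1 = Q.card := Finset.card_erase_add_one hxQ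
    have ih' := ih (Q.erase x) (hg.mono hsubQ) (by
      intro S hS hc
      exact hyp S (hS.trans hsubQ) (by omega))
    have hF := F_bound hx hxQ hg hyp
    have hA1 := rankL hx hxQ hg (k + 1)
    have hA2 := rankR hx hxQ hg (k + 1)
    set E := (Q ×ˢ Q).filter (fun pq => pq.1 ≠ pq.2 ∧ (L Q pq.1 pq.2).card < k + 1) with hE
    set F := (Q ×ˢ Q).filter (fun pq => pq.1 ≠ x ∧ pq.2 ≠ x ∧ pq.1 ≠ pq.2 ∧ o pq.1 pq.2 x < 0 ∧
      (L Q pq.1 pq.2).card = k) with hFdef
    set A1 := ((Q.erase x).filter (fun p => (L Q x p).card < k + 1)).image (fun p => (x, p))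
      with hA1def
    set A2 := ((Q.erase x).filter (fun p => (L Q p x).card < k + 1)).image (fun p => (p, x))
      with hA2def
    set E' := ((Q.erase x) ×ˢ (Q.erase x)).filter
      (fun pq => pq.1 ≠ pq.2 ∧ (L (Q.erase x) pq.1 pq.2).card < k) with hE'
    have hsub : E ⊆ (A1 ∪ A2) ∪ (E' ∪ F) := by
      rintro ⟨p, q⟩ hpq
      rw [hE, Finset.mem_filter, Finset.mem_product] at hpq
      obtain ⟨⟨hp, hq⟩, hne', hlt⟩ := hpq
      simp only at hp hq hne' hlt
      rw [Finset.mem_union, Finset.mem_union, Finset.mem_union]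
      by_cases hpx : p = x
      · left; left
        rw [hA1def, Finset.mem_image]
        refine ⟨q, ?_, by rw [hpx]⟩
        rw [Finset.mem_filter, Finset.mem_erase]
        refine ⟨⟨fun h => hne' (by rw [hpx, h]), hq⟩, ?_⟩
        rw [← hpx]; exact hlt
      by_cases hqx : q = x
      · left; right
        rw [hA2def, Finset.mem_image]
        refine ⟨p, ?_, by rw [hqx]⟩
        rw [Finset.mem_filter, Finset.mem_erase]
        refine ⟨⟨hpx, hp⟩, ?_⟩
        rw [← hqx]; exact hlt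
      right
      by_cases hk : (L (Q.erase x) p q).card < k
      · left
        rw [hE', Finset.mem_filter, Finset.mem_product, Finset.mem_erase, Finset.mem_erase]
        exact ⟨⟨⟨hpx, hp⟩, ⟨hqx, hq⟩⟩, hne', hk⟩
      · right
        have hsubL : L (Q.erase x) p q ⊆ L Q p q := by
          intro z hz
          rw [mem_L] at hz ⊢
          exact ⟨hsubQ hz.1, hz.2⟩
        have hcL := Finset.card_le_card hsubL
        have heqL : (L Q p q).card = k := by omega
        rw [hFdef, Finset.mem_filter, Finset.mem_product]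
        refine ⟨⟨hp, hq⟩, hpx, hqx, hne', ?_, heqL⟩
        show o p q x < 0
        by_contra hcon
        push Not at hcon
        have h0 : o p q x ≠ 0 := hg p hp q hq x hxQ hne' hpx hqx
        have hpos : 0 < o p q x := lt_of_le_of_ne hcon (Ne.symm h0)
        have hss : L (Q.erase x) p q ⊂ L Q p q := by
          rw [Finset.ssubset_iff_of_subset hsubL]
          refine ⟨x, mem_L.2 ⟨hxQ, hpos⟩, ?_⟩
          rw [mem_L]
          rintro ⟨h1, _⟩
          exact (Finset.mem_erase.1 h1).1 rfl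
        have := Finset.card_lt_card hss
        omega
    have hEc : Ec Q (k + 1) = E.card := rfl
    have hEc' : Ec (Q.erase x) k = E'.card := rfl
    have i1 : A1.card ≤ k + 1 := le_trans Finset.card_image_le hA1
    have i2 : A2.card ≤ k + 1 := le_trans Finset.card_image_le hA2
    have i3 := Finset.card_le_card hsub
    have i4 := Finset.card_union_le (A1 ∪ A2) (E' ∪ F)
    have i5 := Finset.card_union_le A1 A2
    have i6 := Finset.card_union_le E' F
    rw [hEc] 
    rw [hEc'] at ih'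
    have : 2 * (k + 1) * (k + 1 + 1) = 2 * k * (k + 1) + 4 * (k + 1) := by ring
    omega

end Pool.Agent.TH835.G5
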