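import Mathlib
import Pool.Agent.TH835.G5.Ek

set_option autoImplicit false

namespace Pool.Agent.TH835.G5

lemma L_add {Q : Finset (ℝ × ℝ)} (hg : GPos Q) {x y : ℝ × ℝ} (hx : x ∈ Q) (hy : y ∈ Q)
    (hxy : x ≠ y) : (L Q x y).card + (L Q y x).card + 2 = Q.card := by
  classical
  have h1 := Finset.card_filter_add_card_filter_not (s := Q) (fun z => 0 < o x y z)
  have h2 : Q.filter (fun z => ¬ 0 < o x y z) = insert x (insert y (L Q y x)) := by
    ext z
    simp only [Finset.mem_filter, Finset.mem_insert, mem_L]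
    constructor
    · rintro ⟨hz, hn⟩
      by_cases hzx : z = x
      · exact Or.inl hzx
      by_cases hzy : z = y
      · exact Or.inr (Or.inl hzy)
      right; right
      refine ⟨hz, ?_⟩
      have := hg x hx y hy z hz hxy (Ne.symm hzx) (Ne.symm hzy)
      rw [o_rev]
      push Not at hn
      have := lt_of_le_of_ne hn this
      linarith
    · rintro (rfl | rfl | ⟨hz, hp⟩)
      · exact ⟨hx, by simp⟩
      · exact ⟨hy, by simp⟩
      · rw [o_rev] at hp
        exact ⟨hz, by linarith⟩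
  have h3 : (insert x (insert y (L Q y x))).card = (L Q y x).card + 2 := by
    rw [Finset.card_insert_of_notMem, Finset.card_insert_of_notMem]
    · rw [mem_L]; simp
    · rw [Finset.mem_insert, mem_L]; simp [hxy]
  unfold L at h1 h2 h3 ⊢
  rw [h2, h3] at h1
  omega

open scoped Classical in
/-- number of `y` such that the line `xy` has at least `k` points of `Q` on each side -/
noncomputable def deg (Q : Finset (ℝ × ℝ)) (k : ℕ) (x : ℝ × ℝ) : ℕ :=
  (Q.filter (fun y => x ≠ y ∧ k ≤ (L Q x y).card ∧ k ≤ (L Q y x).card)).card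

open scoped Classical in
lemma mid_lower (Q : Finset (ℝ × ℝ)) (k : ℕ) :
    Q.card * Q.card ≤ Q.card + ∑ x ∈ Q, deg Q k x + 2 * Ec Q k := by
  set E1 := (Q ×ˢ Q).filter (fun pq => pq.1 ≠ pq.2 ∧ (L Q pq.1 pq.2).card < k) with hE1
  set E2 := (Q ×ˢ Q).filter (fun pq => pq.1 ≠ pq.2 ∧ (L Q pq.2 pq.1).card < k) with hE2
  set Md := (Q ×ˢ Q).filter (fun pq => pq.1 ≠ pq.2 ∧ k ≤ (L Q pq.1 pq.2).card ∧
    k ≤ (L Q pq.2 pq.1).card) with hMd
  set Dg := (Q ×ˢ Q).filter (fun pq => pq.1 = pq.2) with hDg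
  have hsub : Q ×ˢ Q ⊆ (Dg ∪ Md) ∪ (E1 ∪ E2) := by
    intro pq hpq
    simp only [Finset.mem_union, hDg, hMd, hE1, hE2, Finset.mem_filter]
    by_cases h : pq.1 = pq.2
    · exact Or.inl (Or.inl ⟨hpq, h⟩)
    · by_cases h1 : (L Q pq.1 pq.2).card < k
      · exact Or.inr (Or.inl ⟨hpq, h, h1⟩)
      · by_cases h2 : (L Q pq.2 pq.1).card < k
        · exact Or.inr (Or.inr ⟨hpq, h, h2⟩)
        · exact Or.inl (Or.inr ⟨hpq, h, by omega, by omega⟩)
  have c0 : Dg.card ≤ Q.card := by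
    apply Finset.card_le_card_of_injOn Prod.fst
    · intro pq hpq
      have := Finset.mem_filter.1 (Finset.mem_coe.1 hpq)
      exact Finset.mem_coe.2 (Finset.mem_product.1 this.1).1
    · rintro ⟨p, q⟩ hpq ⟨p', q'⟩ hpq' heq
      have h1 := (Finset.mem_filter.1 (Finset.mem_coe.1 hpq)).2
      have h2 := (Finset.mem_filter.1 (Finset.mem_coe.1 hpq')).2
      simp only at heq h1 h2
      rw [Prod.mk.injEq]
      exact ⟨heq, by rw [← h1, ← h2, heq]⟩
  have c2 : E2.card ≤ E1.card := by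
    apply Finset.card_le_card_of_injOn Prod.swap
    · intro pq hpq
      have h := Finset.mem_filter.1 (Finset.mem_coe.1 hpq)
      have h' := Finset.mem_product.1 h.1
      rw [Finset.mem_coe, hE1, Finset.mem_filter, Finset.mem_product]
      exact ⟨⟨h'.2, h'.1⟩, Ne.symm h.2.1, h.2.2⟩
    · exact Prod.swap_injective.injOn
  have cM : Md.card = ∑ x ∈ Q, deg Q k x := by
    rw [hMd, Finset.card_filter, Finset.sum_product]
    apply Finset.sum_congr rfl
    intro x _
    unfold deg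
    rw [Finset.card_filter]
  have hE : Ec Q k = E1.card := rfl
  have i1 := Finset.card_le_card hsub
  have i2 := Finset.card_union_le (Dg ∪ Md) (E1 ∪ E2)
  have i3 := Finset.card_union_le Dg Md
  have i4 := Finset.card_union_le E1 E2
  rw [Finset.card_product] at i1
  omega

lemma mid_lower' {Q : Finset (ℝ × ℝ)} {k : ℕ} (hg : GPos Q)
    (hyp : ∀ S ⊆ Q, Q.card < S.card + k → No5 S) :
    Q.card * Q.card ≤ Q.card + ∑ x ∈ Q, deg Q k x + 4 * k * (k + 1) := by
  have h1 := mid_lower Q k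
  have h2 := Ec_bound k Q hg hyp
  nlinarith

/-- extra point lemma at the left endpoint: `C` lies to the right of `x → y` -/
lemma extra_left {C : Finset (ℝ × ℝ)} {x y a b w : ℝ × ℝ} (hg : GPos C) (h5 : No5 C)
    (hx : x ∈ C) (hy : y ∈ C) (ha : a ∈ C) (hb : b ∈ C) (hw : w ∈ C)
    (ea : Ex C a) (eb : Ex C b) (hxy : x ≠ y)
    (hax : a ≠ x) (hay : a ≠ y) (hbx : b ≠ x) (hby : b ≠ y) (hab : a ≠ b)
    (side : ∀ z ∈ C, z ≠ x → z ≠ y → o x y z < 0)
    (hba : o a x b < 0) : ¬ 0 < o a x w := by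
  intro hpos
  have eX : Ex C x := Ex_of_edge_right (y := y) side
  have eY : Ex C y := Ex_of_edge_left (y := x) (fun z hz h1 h2 => by
    rw [o_rev]; linarith [side z hz h2 h1])
  have hgx : ∀ y ∈ C, ∀ z ∈ C, y ≠ x → z ≠ x → y ≠ z → o x y z ≠ 0 :=
    fun y hy z hz h1 h2 h3 => hg x hx y hy z hz h1.symm h2.symm h3
  obtain ⟨v, hvC, hvx, hv⟩ := exists_next eX hgx ⟨y, hy, hxy.symm⟩
  have hwx : w ≠ x := by rintro rfl; simp at hpos
  have hwa : w ≠ a := by rintro rfl; simp at hpos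
  have hva : v ≠ a := by
    rintro rfl
    have := hv w hw hwx hwa
    rw [o_rev] at this
    linarith
  have hvy : v ≠ y := by
    rintro rfl
    have := hv a ha hax hay
    linarith [side a ha hax hay]
  have hvb : v ≠ b := by
    rintro rfl
    have := hv a ha hax hva.symm
    rw [o_rot] at this
    linarith
  have eV : Ex C v := Ex_of_edge_right (y := x) (fun z hz h1 h2 => by
    rw [o_rev]; linarith [hv z hz h2 h1])
  exact h5.five hx hy ha hb hvC eX eY ea eb eV hxy hax.symm hbx.symm hvx.symm hay.symm hby.symm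
    hvy.symm hab hva.symm hvb.symm

/-- extra point lemma at the right endpoint: `C` lies to the right of `x → y` -/
lemma extra_right {C : Finset (ℝ × ℝ)} {x y a b w : ℝ × ℝ} (hg : GPos C) (h5 : No5 C)
    (hx : x ∈ C) (hy : y ∈ C) (ha : a ∈ C) (hb : b ∈ C) (hw : w ∈ C)
    (ea : Ex C a) (eb : Ex C b) (hxy : x ≠ y)
    (hax : a ≠ x) (hay : a ≠ y) (hbx : b ≠ x) (hby : b ≠ y) (hab : a ≠ b)
    (side : ∀ z ∈ C, z ≠ x → z ≠ y → o x y z < 0)
    (hba : o y b a < 0) : ¬ 0 < o y b w := by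
  intro hpos
  have eX : Ex C x := Ex_of_edge_right (y := y) side
  have eY : Ex C y := Ex_of_edge_left (y := x) (fun z hz h1 h2 => by
    rw [o_rev]; linarith [side z hz h2 h1])
  have hgy : ∀ u ∈ C, ∀ z ∈ C, u ≠ y → z ≠ y → u ≠ z → o y u z ≠ 0 :=
    fun u hu z hz h1 h2 h3 => hg y hy u hu z hz h1.symm h2.symm h3
  obtain ⟨v, hvC, hvy, hv⟩ := exists_prev eY hgy ⟨x, hx, hxy⟩
  have hwy : w ≠ y := by rintro rfl; simp at hpos
  have hwb : w ≠ b := by rintro rfl; simp at hpos
  have hvb : v ≠ b := by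
    rintro rfl
    have := hv w hw hwy hwb
    linarith
  have hvx : v ≠ x := by
    rintro rfl
    have := hv a ha hay hax
    rw [o_rev] at this
    linarith [side a ha hax hay]
  have hva : v ≠ a := by
    rintro rfl
    have := hv b hb hby hvb.symm
    rw [o_swap] at this
    linarith
  have eV : Ex C v := Ex_of_edge_left (y := y) (fun z hz h1 h2 => by
    rw [o_rev]; linarith [hv z hz h2 h1])
  exact h5.five hx hy ha hb hvC eX eY ea eb eV hxy hax.symm hbx.symm hvx.symm hay.symm hby.symm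
    hvy.symm hab hva.symm hvb.symm

end Pool.Agent.TH835.G5
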