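import Mathlib
import Pool.Agent.TH835.G5.Mid

set_option autoImplicit false

namespace Pool.Agent.TH835.G5

/-- closed right side of `x → y` -/
noncomputable def Rc (A : Finset (ℝ × ℝ)) (x y : ℝ × ℝ) : Finset (ℝ × ℝ) :=
  A.filter (fun z => ¬ 0 < o x y z)

lemma mem_Rc {S : Finset (ℝ × ℝ)} {p q z : ℝ × ℝ} : z ∈ Rc S p q ↔ z ∈ S ∧ ¬ 0 < o p q z := by
  unfold Rc; rw [Finset.mem_filter]

lemma card_ge4 {T C : Finset (ℝ × ℝ)} (hT : T ⊆ C) {x y a b : ℝ × ℝ}
    (hx : x ∈ C) (hy : y ∈ C) (ha : a ∈ C) (hb : b ∈ C)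
    (nx : x ∉ T) (ny : y ∉ T) (na : a ∉ T) (nb : b ∉ T)
    (hxy : x ≠ y) (hax : a ≠ x) (hay : a ≠ y) (hbx : b ≠ x) (hby : b ≠ y) (hab : a ≠ b) :
    T.card + 4 ≤ C.card := by
  classical
  have h1 : (insert x (insert y (insert a (insert b T)))).card = T.card + 4 := by
    rw [Finset.card_insert_of_notMem, Finset.card_insert_of_notMem,
      Finset.card_insert_of_notMem, Finset.card_insert_of_notMem nb]
    · simp [hab, na]
    · simp [hay.symm, hby.symm, ny]
    · simp [hxy, hax.symm, hbx.symm, nx]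
  rw [← h1]
  apply Finset.card_le_card
  intro z hz
  simp only [Finset.mem_insert] at hz
  rcases hz with rfl | rfl | rfl | rfl | hz
  · exact hx
  · exact hy
  · exact ha
  · exact hb
  · exact hT hz

/-- common data -/
structure Base (A I : Finset (ℝ × ℝ)) (M : ℕ) : Prop where
  gp : GPos A
  hyp : ∀ S ⊆ A, M + 1 ≤ S.card → No5 S
  hM : 4 ≤ M
  IA : I ⊆ A

/-- middle pairs -/
structure Mid (I : Finset (ℝ × ℝ)) (M : ℕ) (x y : ℝ × ℝ) : Prop where
  hx : x ∈ I
  hy : y ∈ I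
  hxy : x ≠ y
  l : M ≤ (L I x y).card + 3
  r : M ≤ (L I y x).card + 3

/-- one-sided middle pairs -/
structure MidR (I : Finset (ℝ × ℝ)) (M : ℕ) (x y : ℝ × ℝ) : Prop where
  hx : x ∈ I
  hy : y ∈ I
  hxy : x ≠ y
  r : M ≤ (L I y x).card + 3

lemma Mid.R {I : Finset (ℝ × ℝ)} {M : ℕ} {x y : ℝ × ℝ} (m : Mid I M x y) : MidR I M x y :=
  ⟨m.hx, m.hy, m.hxy, m.r⟩

lemma Mid.symm {I : Finset (ℝ × ℝ)} {M : ℕ} {x y : ℝ × ℝ} (m : Mid I M x y) : Mid I M y x :=
  ⟨m.hy, m.hx, m.hxy.symm, m.r, m.l⟩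

section base
variable {A I : Finset (ℝ × ℝ)} {M : ℕ} {x y a b u v : ℝ × ℝ}

/-- the closed right side containing at least two points outside `I` satisfies `No5` -/
lemma Base.no5R (B : Base A I M) (m : MidR I M x y) (ha : a ∈ A) (hb : b ∈ A)
    (na : a ∉ I) (nb : b ∉ I) (hab : a ≠ b) (oa : o x y a < 0) (ob : o x y b < 0) :
    No5 (Rc A x y) := by
  refine B.hyp (Rc A x y) (Finset.filter_subset _ _) ?_
  have hax : a ≠ x := fun h => na (h ▸ m.hx)
  have hay : a ≠ y := fun h => na (h ▸ m.hy)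
  have hbx : b ≠ x := fun h => nb (h ▸ m.hx)
  have hby : b ≠ y := fun h => nb (h ▸ m.hy)
  have h := card_ge4 (T := L I y x) (C := Rc A x y) (x := x) (y := y) (a := a) (b := b) (by
      intro z hz
      rw [mem_L] at hz
      rw [mem_Rc]
      have := hz.2
      rw [o_rev] at this
      exact ⟨B.IA hz.1, by linarith⟩)
    (mem_Rc.2 ⟨B.IA m.hx, by simp⟩) (mem_Rc.2 ⟨B.IA m.hy, by simp⟩)
    (mem_Rc.2 ⟨ha, by linarith⟩) (mem_Rc.2 ⟨hb, by linarith⟩)
    (by rw [mem_L]; simp) (by rw [mem_L]; simp)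
    (fun h => na (mem_L.1 h).1) (fun h => nb (mem_L.1 h).1)
    m.hxy hax hay hbx hby hab
  have := m.r
  omega

lemma Base.side (B : Base A I M) (hx : x ∈ I) (hy : y ∈ I) (hxy : x ≠ y) :
    ∀ z ∈ Rc A x y, z ≠ x → z ≠ y → o x y z < 0 := by
  intro z hz h1 h2
  have hz' := mem_Rc.1 hz
  have h3 := B.gp x (B.IA hx) y (B.IA hy) z hz'.1 hxy h1.symm h2.symm
  have h4 := hz'.2
  push Not at h4
  exact lt_of_le_of_ne h4 h3

/-- lower facts -/
lemma Base.facts (B : Base A I M) (m : MidR I M x y) (ha : a ∈ A) (hb : b ∈ A)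
    (na : a ∉ I) (nb : b ∉ I) (hab : a ≠ b) (ea : Ex A a) (eb : Ex A b)
    (hax' : 0 < o a b x) (hay' : 0 < o a b y)
    (oa : o x y a < 0) (ob : o x y b < 0) :
    (∀ w ∈ I, o x y w < 0 → ¬ 0 < o a x w) ∧ (∀ w ∈ I, o x y w < 0 → ¬ 0 < o y b w) := by
  have h5 := B.no5R m ha hb na nb hab oa ob
  have hsub : Rc A x y ⊆ A := Finset.filter_subset _ _
  have hax : a ≠ x := fun h => na (h ▸ m.hx)
  have hay : a ≠ y := fun h => na (h ▸ m.hy)
  have hbx : b ≠ x := fun h => nb (h ▸ m.hx)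
  have hby : b ≠ y := fun h => nb (h ▸ m.hy)
  have hxC : x ∈ Rc A x y := mem_Rc.2 ⟨B.IA m.hx, by simp⟩
  have hyC : y ∈ Rc A x y := mem_Rc.2 ⟨B.IA m.hy, by simp⟩
  have haC : a ∈ Rc A x y := mem_Rc.2 ⟨ha, by linarith⟩
  have hbC : b ∈ Rc A x y := mem_Rc.2 ⟨hb, by linarith⟩
  constructor
  · intro w hw hlt
    exact extra_left (B.gp.mono hsub) h5 hxC hyC haC hbC (mem_Rc.2 ⟨B.IA hw, by linarith⟩)
      (ea.mono hsub) (eb.mono hsub) m.hxy hax hay hbx hby hab (B.side m.hx m.hy m.hxy)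
      (by rw [o_swap]; linarith)
  · intro w hw hlt
    exact extra_right (B.gp.mono hsub) h5 hxC hyC haC hbC (mem_Rc.2 ⟨B.IA hw, by linarith⟩)
      (ea.mono hsub) (eb.mono hsub) m.hxy hax hay hbx hby hab (B.side m.hx m.hy m.hxy)
      (by rw [← o_rot y b a, o_rev]; linarith)

/-- not three Ex points outside `I` strictly on the right side of a middle pair -/
lemma Base.three (B : Base A I M) (m : Mid I M x y) (ha : a ∈ A) (hb : b ∈ A) (hu : u ∈ A)
    (na : a ∉ I) (nb : b ∉ I) (nu : u ∉ I) (hab : a ≠ b) (hau : a ≠ u) (hbu : b ≠ u)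
    (ea : Ex A a) (eb : Ex A b) (eu : Ex A u)
    (oa : o x y a < 0) (ob : o x y b < 0) (ou : o x y u < 0) : False := by
  have h5 := B.no5R m.R ha hb na nb hab oa ob
  have hsub : Rc A x y ⊆ A := Finset.filter_subset _ _
  have hax : a ≠ x := fun h => na (h ▸ m.hx)
  have hay : a ≠ y := fun h => na (h ▸ m.hy)
  have hbx : b ≠ x := fun h => nb (h ▸ m.hx)
  have hby : b ≠ y := fun h => nb (h ▸ m.hy)
  have hux : u ≠ x := fun h => nu (h ▸ m.hx)
  have huy : u ≠ y := fun h => nu (h ▸ m.hy)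
  have side := B.side m.hx m.hy m.hxy
  have eX : Ex (Rc A x y) x := Ex_of_edge_right (y := y) side
  have eY : Ex (Rc A x y) y := Ex_of_edge_left (y := x) (fun z hz h1 h2 => by
    rw [o_rev]; linarith [side z hz h2 h1])
  exact h5.five (mem_Rc.2 ⟨B.IA m.hx, by simp⟩) (mem_Rc.2 ⟨B.IA m.hy, by simp⟩)
    (mem_Rc.2 ⟨ha, by linarith⟩) (mem_Rc.2 ⟨hb, by linarith⟩) (mem_Rc.2 ⟨hu, by linarith⟩)
    eX eY (ea.mono hsub) (eb.mono hsub) (eu.mono hsub) m.hxy hax.symm hbx.symm hux.symm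
    hay.symm hby.symm huy.symm hab hau hbu

/-- if `u` is to the right of both `x → y` and `x → y'` -/
lemma right_both {x y y' w u : ℝ × ℝ} (h : 0 < o x y y') (h1 : 0 < o x y' w) (h2 : o x y w < 0)
    (h3 : o x y u < 0) (h4 : o x y' u < 0) : 0 < o x w u := by
  have key := gp4 x y y' w u
  have k1 := mul_pos (neg_pos.2 h2) (neg_pos.2 h4)
  have k2 := mul_pos (neg_pos.2 h3) h1
  have : 0 < o x y y' * o x w u := by
    nlinarith
  exact (pos_iff_pos_of_mul_pos this).1 h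

lemma left_both {x y y' w u : ℝ × ℝ} (h : 0 < o x y y') (h1 : 0 < o x y' w) (h2 : o x y w < 0)
    (h3 : 0 < o x y u) (h4 : 0 < o x y' u) : 0 < o x u w := by
  have key := gp4 x y y' w u
  have h5 : o x u w = - o x w u := o_swap _ _ _
  have : 0 < o x y y' * o x u w := by
    rw [h5]
    nlinarith [mul_pos (neg_pos.2 h2) h4, mul_pos h3 h1]
  exact (pos_iff_pos_of_mul_pos this).1 h

end base

/-- convex quadrilateral hull -/
structure Quad (A I : Finset (ℝ × ℝ)) (M : ℕ) (a b c d : ℝ × ℝ) : Prop where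
  B : Base A I M
  ha : a ∈ A
  hb : b ∈ A
  hc : c ∈ A
  hd : d ∈ A
  na : a ∉ I
  nb : b ∉ I
  nc : c ∉ I
  nd : d ∉ I
  hab : a ≠ b
  hac : a ≠ c
  had : a ≠ d
  hbc : b ≠ c
  hbd : b ≠ d
  hcd : c ≠ d
  eab : ∀ w ∈ A, w ≠ a → w ≠ b → 0 < o a b w
  ebc : ∀ w ∈ A, w ≠ b → w ≠ c → 0 < o b c w
  ecd : ∀ w ∈ A, w ≠ c → w ≠ d → 0 < o c d w
  eda : ∀ w ∈ A, w ≠ d → w ≠ a → 0 < o d a w

section quad
variable {A I : Finset (ℝ × ℝ)} {M : ℕ} {a b c d x y y' : ℝ × ℝ}

lemma Quad.rot (q : Quad A I M a b c d) : Quad A I M b c d a :=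
  ⟨q.B, q.hb, q.hc, q.hd, q.ha, q.nb, q.nc, q.nd, q.na, q.hbc, q.hbd, q.hab.symm, q.hcd,
    q.hac.symm, q.had.symm, q.ebc, q.ecd, q.eda, q.eab⟩

lemma Quad.exa (q : Quad A I M a b c d) : Ex A a := Ex_of_edge_left q.eab

/-- `y` is to the east of `x` -/
structure East (a b c d x y : ℝ × ℝ) : Prop where
  a : o x y a < 0
  b : o x y b < 0
  c : 0 < o x y c
  d : 0 < o x y d

lemma East.flip (e : East a b c d x y) : East c d a b y x := by
  refine ⟨?_, ?_, ?_, ?_⟩ <;> rw [o_rev]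
  · linarith [e.c]
  · linarith [e.d]
  · linarith [e.a]
  · linarith [e.b]

lemma Quad.alt (q : Quad A I M a b c d) (ha : o x y a < 0) (hc : o x y c < 0)
    (hb : 0 < o x y b) (hd : 0 < o x y d) : False := by
  have e1 := q.ebc d q.hd q.hbd.symm q.hcd.symm
  have e2 := q.eab d q.hd q.had.symm q.hbd.symm
  have e3 := q.ecd a q.ha q.hac q.had
  have e4 := q.eab c q.hc q.hac.symm q.hbc.symm
  have key : o x y a * o b c d + o x y c * o a b d = o x y b * o c d a + o x y d * o a b c := by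
    unfold o; ring
  nlinarith [mul_pos (neg_pos.2 ha) e1, mul_pos (neg_pos.2 hc) e2, mul_pos hb e3, mul_pos hd e4]

lemma Quad.split (q : Quad A I M a b c d) (m : Mid I M x y) :
    East a b c d x y ∨ East b c d a x y ∨ East c d a b x y ∨ East d a b c x y := by
  have gp0 : ∀ u ∈ A, u ∉ I → o x y u ≠ 0 := by
    intro u hu hnu
    exact q.B.gp x (q.B.IA m.hx) y (q.B.IA m.hy) u hu m.hxy (fun h => hnu (h ▸ m.hx))
      (fun h => hnu (h ▸ m.hy))
  have exa := q.exa
  have exb := q.rot.exa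
  have exc := q.rot.rot.exa
  have exd := q.rot.rot.rot.exa
  have flipp : ∀ u, 0 < o x y u → o y x u < 0 := by
    intro u hu; rw [o_rev]; linarith
  rcases lt_or_gt_of_ne (gp0 a q.ha q.na) with ha | ha
  · rcases lt_or_gt_of_ne (gp0 b q.hb q.nb) with hb | hb
    · rcases lt_or_gt_of_ne (gp0 c q.hc q.nc) with hc | hc
      · exact (q.B.three m q.ha q.hb q.hc q.na q.nb q.nc q.hab q.hac q.hbc exa exb exc
          ha hb hc).elim
      · rcases lt_or_gt_of_ne (gp0 d q.hd q.nd) with hd | hd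
        · exact (q.B.three m q.ha q.hb q.hd q.na q.nb q.nd q.hab q.had q.hbd exa exb exd
            ha hb hd).elim
        · exact Or.inl ⟨ha, hb, hc, hd⟩
    · rcases lt_or_gt_of_ne (gp0 c q.hc q.nc) with hc | hc
      · rcases lt_or_gt_of_ne (gp0 d q.hd q.nd) with hd | hd
        · exact (q.B.three m q.ha q.hc q.hd q.na q.nc q.nd q.hac q.had q.hcd exa exc exd
            ha hc hd).elim
        · exact (q.alt ha hc hb hd).elim
      · rcases lt_or_gt_of_ne (gp0 d q.hd q.nd) with hd | hd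
        · exact Or.inr (Or.inr (Or.inr ⟨hd, ha, hb, hc⟩))
        · exact (q.B.three m.symm q.hb q.hc q.hd q.nb q.nc q.nd q.hbc q.hbd q.hcd exb exc exd
            (flipp _ hb) (flipp _ hc) (flipp _ hd)).elim
  · rcases lt_or_gt_of_ne (gp0 b q.hb q.nb) with hb | hb
    · rcases lt_or_gt_of_ne (gp0 c q.hc q.nc) with hc | hc
      · rcases lt_or_gt_of_ne (gp0 d q.hd q.nd) with hd | hd
        · exact (q.B.three m q.hb q.hc q.hd q.nb q.nc q.nd q.hbc q.hbd q.hcd exb exc exd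
            hb hc hd).elim
        · exact Or.inr (Or.inl ⟨hb, hc, hd, ha⟩)
      · rcases lt_or_gt_of_ne (gp0 d q.hd q.nd) with hd | hd
        · exact (q.rot.alt hb hd hc ha).elim
        · exact (q.B.three m.symm q.ha q.hc q.hd q.na q.nc q.nd q.hac q.had q.hcd exa exc exd
            (flipp _ ha) (flipp _ hc) (flipp _ hd)).elim
    · rcases lt_or_gt_of_ne (gp0 c q.hc q.nc) with hc | hc
      · rcases lt_or_gt_of_ne (gp0 d q.hd q.nd) with hd | hd
        · exact Or.inr (Or.inr (Or.inl ⟨hc, hd, ha, hb⟩))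
        · exact (q.B.three m.symm q.ha q.hb q.hd q.na q.nb q.nd q.hab q.had q.hbd exa exb exd
            (flipp _ ha) (flipp _ hb) (flipp _ hd)).elim
      · exact (q.B.three m.symm q.ha q.hb q.hc q.na q.nb q.nc q.hab q.hac q.hbc exa exb exc
            (flipp _ ha) (flipp _ hb) (flipp _ hc)).elim

lemma Quad.inI (q : Quad A I M a b c d) {w : ℝ × ℝ} (hw : w ∈ I) : 0 < o a b w :=
  q.eab w (q.B.IA hw) (fun h => q.na (h ▸ hw)) (fun h => q.nb (h ▸ hw))

lemma Quad.facts (q : Quad A I M a b c d) (m : Mid I M x y) (e : East a b c d x y) :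
    (∀ w ∈ I, o x y w < 0 → ¬ 0 < o a x w) ∧ (∀ w ∈ I, o x y w < 0 → ¬ 0 < o y b w) :=
  q.B.facts m.R q.ha q.hb q.na q.nb q.hab q.exa q.rot.exa (q.inI m.hx) (q.inI m.hy) e.a e.b

lemma Quad.empty (q : Quad A I M a b c d) (m : Mid I M x y) (e : East a b c d x y) :
    ∀ w ∈ I, 0 < o a x w → 0 < o x d w → False := by
  intro w hw h1 h2
  have f1 := (q.facts m e).1
  have f2 := (q.rot.rot.facts m.symm e.flip).2
  have hwx : w ≠ x := by rintro rfl; simp at h1
  have hwy : w ≠ y := by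
    rintro rfl
    rw [← o_rot] at h1
    rw [o_rot, ← o_rot] at h1
    have := e.a
    rw [← o_rot] at this
    have h3 : o a x w = o x w a := (o_rot a x w).symm
    linarith [e.a]
  rcases lt_or_gt_of_ne (q.B.gp x (q.B.IA m.hx) y (q.B.IA m.hy) w (q.B.IA hw) m.hxy
    hwx.symm hwy.symm) with h | h
  · exact f1 w hw h h1
  · exact f2 w hw (by rw [o_rev]; linarith) h2

lemma Quad.key_E (q : Quad A I M a b c d) (m : Mid I M x y) (m' : Mid I M x y')
    (e : East a b c d x y) (h : 0 < o x y y') : (L I x y').card < (L I x y).card := by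
  have hsub : L I x y' ⊆ L I x y := by
    intro w hw
    rw [mem_L] at hw ⊢
    refine ⟨hw.1, ?_⟩
    by_contra hcon
    have hwx : w ≠ x := by rintro rfl; simp at hw
    have hwy : w ≠ y := by
      rintro rfl
      have := hw.2
      rw [o_swap] at this
      linarith
    have h2 : o x y w < 0 := by
      push Not at hcon
      exact lt_of_le_of_ne hcon (q.B.gp x (q.B.IA m.hx) y (q.B.IA m.hy) w (q.B.IA hw.1) m.hxy
        hwx.symm hwy.symm)
    have h1 := hw.2
    rcases q.split m' with e' | e' | e' | e'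
    · -- E
      have i1 := right_both h h1 h2 e.a e'.a
      have i2 := left_both h h1 h2 e.d e'.d
      exact q.empty m e w hw.1 (by rw [← o_rot a x w]; exact i1) i2
    · -- N
      have i1 := right_both h h1 h2 e.b e'.a
      have i2 := left_both h h1 h2 e.d e'.c
      have hax : a ≠ x := fun h => q.na (h ▸ m.hx)
      have haw : a ≠ w := fun h => q.na (h ▸ hw.1)
      rcases lt_or_gt_of_ne (q.B.gp x (q.B.IA m.hx) w (q.B.IA hw.1) a q.ha hwx.symm
        hax.symm haw.symm) with h3 | h3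
      · exact q.rot.empty m' e' w hw.1 (by rw [← o_rot b x w]; exact i1)
          (by rw [o_swap]; linarith)
      · exact q.empty m e w hw.1 (by rw [← o_rot a x w]; exact h3) i2
    · -- W
      exact q.rot.rot.empty m' e' y m.hy (by rw [← o_rot c x y]; exact e.c)
        (by rw [o_swap]; linarith [e.b])
    · -- S
      have key := gp4 x y y' b a
      have i1 : 0 < o x y y' * o x b a := by
        nlinarith [mul_pos (neg_pos.2 e.b) (neg_pos.2 e'.b), mul_pos (neg_pos.2 e.a) e'.c]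
      have i2 := (pos_iff_pos_of_mul_pos i1).1 h
      have i3 := q.inI m.hx
      rw [← o_rot] at i3
      have i4 : o x a b = - o x b a := o_swap _ _ _
      have i5 : o a b x = o x a b := o_rot x a b
      have i6 := q.inI m.hx
      linarith
  apply Finset.card_lt_card
  rw [Finset.ssubset_iff_of_subset hsub]
  exact ⟨y', mem_L.2 ⟨m'.hy, h⟩, by rw [mem_L]; simp⟩

lemma Quad.key (q : Quad A I M a b c d) (m : Mid I M x y) (m' : Mid I M x y')
    (h : 0 < o x y y') : (L I x y').card < (L I x y).card := by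
  rcases q.split m with e | e | e | e
  · exact q.key_E m m' e h
  · exact q.rot.key_E m m' e h
  · exact q.rot.rot.key_E m m' e h
  · exact q.rot.rot.rot.key_E m m' e h

lemma Quad.deg_le (q : Quad A I M a b c d) (hI : I.card + 3 = 2 * M) (hx : x ∈ I) :
    deg I (M - 3) x ≤ 2 := by
  classical
  unfold deg
  have hgI : GPos I := q.B.gp.mono q.B.IA
  have hM := q.B.hM
  have h2 : (Finset.Icc (M - 3) (M - 2)).card = 2 := by
    rw [Nat.card_Icc]; omega
  rw [← h2]
  have toMid : ∀ y, y ∈ I.filter (fun y => x ≠ y ∧ M - 3 ≤ (L I x y).card ∧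
      M - 3 ≤ (L I y x).card) → Mid I M x y := by
    intro y hy
    have hy' := Finset.mem_filter.1 hy
    exact ⟨hx, hy'.1, hy'.2.1, by omega, by omega⟩
  apply Finset.card_le_card_of_injOn (fun y => (L I x y).card)
  · intro y hy
    have m := toMid y (Finset.mem_coe.1 hy)
    have hadd := L_add hgI m.hx m.hy m.hxy
    have h3 := m.l
    have h4 := m.r
    rw [Finset.mem_coe, Finset.mem_Icc]
    show M - 3 ≤ (L I x y).card ∧ (L I x y).card ≤ M - 2
    constructor <;> omega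
  · intro y hy y' hy' heq
    have m := toMid y (Finset.mem_coe.1 hy)
    have m' := toMid y' (Finset.mem_coe.1 hy')
    simp only at heq
    by_contra hne
    rcases lt_or_gt_of_ne (hgI x hx y m.hy y' m'.hy m.hxy m'.hxy hne) with h | h
    · have := q.key m' m (by rw [o_swap]; linarith)
      omega
    · have := q.key m m' h
      omega

theorem Quad.false (q : Quad A I M a b c d) (hI : I.card + 3 = 2 * M) : False := by
  have hM := q.B.hM
  have h1 := mid_lower' (Q := I) (k := M - 3) (q.B.gp.mono q.B.IA) (by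
    intro S hS hc
    exact q.B.hyp S (hS.trans q.B.IA) (by omega))
  have h2 : ∑ x ∈ I, deg I (M - 3) x ≤ I.card * 2 := by
    rw [← smul_eq_mul, ← Finset.sum_const]
    exact Finset.sum_le_sum (fun x hx => q.deg_le hI hx)
  obtain ⟨t, rfl⟩ : ∃ t, M = t + 4 := ⟨M - 4, by omega⟩
  have hc : I.card = 2 * t + 5 := by omega
  rw [hc] at h1 h2
  have h3 : t + 4 - 3 = t + 1 := by omega
  rw [h3] at h1 h2
  nlinarith

end quad

end Pool.Agent.TH835.G5
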