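import Mathlib
import Pool.Agent.TH835.G5.Quad
import Pool.Agent.TH835.G5.Comb

set_option autoImplicit false

namespace Pool.Agent.TH835.G5

/-- triangular hull -/
structure Tri (A I : Finset (ℝ × ℝ)) (M : ℕ) (a b c : ℝ × ℝ) : Prop where
  B : Base A I M
  ha : a ∈ A
  hb : b ∈ A
  hc : c ∈ A
  na : a ∉ I
  nb : b ∉ I
  nc : c ∉ I
  hab : a ≠ b
  hac : a ≠ c
  hbc : b ≠ c
  eab : ∀ w ∈ A, w ≠ a → w ≠ b → 0 < o a b w
  ebc : ∀ w ∈ A, w ≠ b → w ≠ c → 0 < o b c w
  eca : ∀ w ∈ A, w ≠ c → w ≠ a → 0 < o c a w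
  hI : I.card + 2 = 2 * M

/-- points of `I` in the sector from `u` to `v` seen from `x` -/
noncomputable def Sc (I : Finset (ℝ × ℝ)) (u v x : ℝ × ℝ) : Finset (ℝ × ℝ) :=
  I.filter (fun w => 0 < o x u w ∧ 0 < o x w v)

lemma mem_Sc {I : Finset (ℝ × ℝ)} {u v x w : ℝ × ℝ} :
    w ∈ Sc I u v x ↔ w ∈ I ∧ 0 < o x u w ∧ 0 < o x w v := by
  unfold Sc; rw [Finset.mem_filter]

section tri
variable {A I : Finset (ℝ × ℝ)} {M : ℕ} {a b c x y y' w : ℝ × ℝ}

lemma Tri.rot (t : Tri A I M a b c) : Tri A I M b c a :=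
  ⟨t.B, t.hb, t.hc, t.ha, t.nb, t.nc, t.na, t.hbc, t.hab.symm, t.hac.symm, t.ebc, t.eca, t.eab,
    t.hI⟩

lemma Tri.exa (t : Tri A I M a b c) : Ex A a := Ex_of_edge_left t.eab

lemma Tri.inI (t : Tri A I M a b c) (hw : w ∈ I) : 0 < o a b w :=
  t.eab w (t.B.IA hw) (fun h => t.na (h ▸ hw)) (fun h => t.nb (h ▸ hw))

lemma Tri.xab (t : Tri A I M a b c) (hx : x ∈ I) : 0 < o x a b := by
  have := t.inI hx
  rwa [o_rot x a b] at this

lemma Tri.ne0 (t : Tri A I M a b c) (hx : x ∈ I) (hw : w ∈ I) (hwx : w ≠ x) : o x a w ≠ 0 :=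
  t.B.gp x (t.B.IA hx) a t.ha w (t.B.IA hw) (fun h => t.na (h ▸ hx)) hwx.symm
    (fun h => t.na (h ▸ hw))

lemma Tri.cover (t : Tri A I M a b c) (hx : x ∈ I) (hw : w ∈ I) (hwx : w ≠ x) :
    w ∈ Sc I a b x ∨ w ∈ Sc I b c x ∨ w ∈ Sc I c a x := by
  have na := t.ne0 hx hw hwx
  have nb := t.rot.ne0 hx hw hwx
  have nc := t.rot.rot.ne0 hx hw hwx
  have h1 := t.xab hx
  have h2 := t.rot.xab hx
  have h3 := t.rot.rot.xab hx
  have key : o x b c * o x a w + o x c a * o x b w + o x a b * o x c w = 0 := by unfold o; ring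
  simp only [mem_Sc]
  have s1 := o_swap x w a
  have s2 := o_swap x w b
  have s3 := o_swap x w c
  rcases lt_or_gt_of_ne na with ha | ha
  · rcases lt_or_gt_of_ne nc with hc | hc
    · rcases lt_or_gt_of_ne nb with hb | hb
      · exfalso
        nlinarith [mul_pos h2 (neg_pos.2 ha), mul_pos h3 (neg_pos.2 hb), mul_pos h1 (neg_pos.2 hc)]
      · right; left; exact ⟨hw, hb, by linarith⟩
    · right; right; exact ⟨hw, hc, by linarith⟩
  · rcases lt_or_gt_of_ne nb with hb | hb
    · left; exact ⟨hw, ha, by linarith⟩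
    · rcases lt_or_gt_of_ne nc with hc | hc
      · right; left; exact ⟨hw, hb, by linarith⟩
      · exfalso
        nlinarith [mul_pos h2 ha, mul_pos h3 hb, mul_pos h1 hc]

lemma Sc_disj (u v r : ℝ × ℝ) : Disjoint (Sc I u v x) (Sc I v r x) := by
  rw [Finset.disjoint_left]
  intro z h1 h2
  rw [mem_Sc] at h1 h2
  have := o_swap x z v
  linarith [h1.2.2, h2.2.1]

lemma Tri.sum (t : Tri A I M a b c) (hx : x ∈ I) :
    (Sc I a b x).card + (Sc I b c x).card + (Sc I c a x).card + 1 = I.card := by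
  classical
  have h1 : I.erase x = (Sc I a b x ∪ Sc I b c x) ∪ Sc I c a x := by
    ext w
    rw [Finset.mem_erase, Finset.mem_union, Finset.mem_union]
    constructor
    · rintro ⟨h1, h2⟩
      rcases t.cover hx h2 h1 with h | h | h
      · exact Or.inl (Or.inl h)
      · exact Or.inl (Or.inr h)
      · exact Or.inr h
    · rintro ((h | h) | h)
      · rw [mem_Sc] at h
        exact ⟨by rintro rfl; simp at h, h.1⟩
      · rw [mem_Sc] at h
        exact ⟨by rintro rfl; simp at h, h.1⟩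
      · rw [mem_Sc] at h
        exact ⟨by rintro rfl; simp at h, h.1⟩
  have h2 := Finset.card_erase_add_one hx
  rw [h1, Finset.card_union_of_disjoint, Finset.card_union_of_disjoint (Sc_disj _ _ _)] at h2
  · exact h2
  · rw [Finset.disjoint_union_left]
    exact ⟨(Sc_disj c a b).symm, Sc_disj b c a⟩

lemma Tri.factR (t : Tri A I M a b c) (m : MidR I M x y) (oa : o x y a < 0) (ob : o x y b < 0) :
    (∀ w ∈ I, o x y w < 0 → ¬ 0 < o a x w) ∧ (∀ w ∈ I, o x y w < 0 → ¬ 0 < o y b w) :=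
  t.B.facts m t.ha t.hb t.na t.nb t.hab t.exa t.rot.exa (t.inI m.hx) (t.inI m.hy) oa ob

lemma Tri.factL (t : Tri A I M a b c) (m : Mid I M x y) (oa : 0 < o x y a) (oc : 0 < o x y c) :
    ∀ w ∈ I, 0 < o x y w → ¬ 0 < o x a w := by
  intro w hw h
  have h1 := (t.rot.rot.factR m.symm.R (by rw [o_rev]; linarith) (by rw [o_rev]; linarith)).2 w hw
  exact h1 (by rw [o_rev]; linarith)

/-- monotonicity within the sector `b c` -/
lemma Tri.mono (t : Tri A I M a b c) (m : Mid I M x y) (m' : Mid I M x y')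
    (hb : 0 < o x b y) (hc : 0 < o x y c) (hb' : 0 < o x b y') (hc' : 0 < o x y' c)
    (h : 0 < o x y y') : (L I x y').card < (L I x y).card := by
  have ob : o x y b < 0 := by rw [o_swap]; linarith
  have ob' : o x y' b < 0 := by rw [o_swap]; linarith
  have hsub : L I x y' ⊆ L I x y := by
    intro w hw
    rw [mem_L] at hw ⊢
    refine ⟨hw.1, ?_⟩
    by_contra hcon
    have hwx : w ≠ x := by rintro rfl; simp at hw
    have hwy : w ≠ y := by
      rintro rfl
      have := hw.2
      rw [o_swap] at this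
      linarith
    have h2 : o x y w < 0 := by
      push Not at hcon
      exact lt_of_le_of_ne hcon (t.B.gp x (t.B.IA m.hx) y (t.B.IA m.hy) w (t.B.IA hw.1) m.hxy
        hwx.symm hwy.symm)
    have h1 := hw.2
    have hax : a ≠ x := fun h => t.na (h ▸ m.hx)
    have hay : a ≠ y := fun h => t.na (h ▸ m.hy)
    have hay' : a ≠ y' := fun h => t.na (h ▸ m'.hy)
    have na1 := t.B.gp x (t.B.IA m.hx) y (t.B.IA m.hy) a t.ha m.hxy hax.symm hay.symm
    have na2 := t.B.gp x (t.B.IA m.hx) y' (t.B.IA m'.hy) a t.ha m'.hxy hax.symm hay'.symm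
    have na3 := t.ne0 m.hx hw.1 hwx
    have e1 : o a x w = o x w a := (o_rot a x w).symm
    have e2 : o x w a = - o x a w := o_swap _ _ _
    rcases lt_or_gt_of_ne na1 with oa | oa
    · have f := (t.factR m.R oa ob).1 w hw.1 h2
      rcases lt_or_gt_of_ne na2 with oa' | oa'
      · have := right_both h h1 h2 oa oa'
        exact f (by linarith)
      · have f' := t.factL m' oa' hc' w hw.1 h1
        push Not at f f'
        exact na3 (by linarith)
    · rcases lt_or_gt_of_ne na2 with oa' | oa'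
      · have key := gp4 x y y' a b
        have h3 := t.xab m.hx
        nlinarith [mul_pos h h3, mul_pos oa (neg_pos.2 ob'), mul_pos (neg_pos.2 ob) (neg_pos.2 oa')]
      · have := left_both h h1 h2 oa oa'
        exact t.factL m' oa' hc' w hw.1 h1 this
  apply Finset.card_lt_card
  rw [Finset.ssubset_iff_of_subset hsub]
  exact ⟨y', mem_L.2 ⟨m'.hy, h⟩, by rw [mem_L]; simp⟩

lemma Tri.rangeL (t : Tri A I M a b c) (m : Mid I M x y)
    (hb : 0 < o x b y) (hc : 0 < o x y c) : (Sc I c a x).card ≤ (L I x y).card := by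
  have ob : o x y b < 0 := by rw [o_swap]; linarith
  apply Finset.card_le_card
  intro w hw
  rw [mem_Sc] at hw
  rw [mem_L]
  refine ⟨hw.1, ?_⟩
  have hax : a ≠ x := fun h => t.na (h ▸ m.hx)
  have hay : a ≠ y := fun h => t.na (h ▸ m.hy)
  have na1 := t.B.gp x (t.B.IA m.hx) y (t.B.IA m.hy) a t.ha m.hxy hax.symm hay.symm
  rcases lt_or_gt_of_ne na1 with oa | oa
  · by_contra hcon
    have hwx : w ≠ x := by rintro rfl; simp at hw
    have hwy : w ≠ y := by
      rintro rfl
      have := hw.2.1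
      rw [o_swap] at this
      linarith
    have h2 : o x y w < 0 := by
      push Not at hcon
      exact lt_of_le_of_ne hcon (t.B.gp x (t.B.IA m.hx) y (t.B.IA m.hy) w (t.B.IA hw.1) m.hxy
        hwx.symm hwy.symm)
    have f := (t.factR m.R oa ob).1 w hw.1 h2
    rw [← o_rot a x w] at f
    exact f hw.2.2
  · have h3 := t.rot.rot.xab m.hx
    have key := gp4 x y c a w
    have e2 : o x w a = - o x a w := o_swap _ _ _
    have h4 : 0 < o x c a * o x y w := by
      nlinarith [mul_pos oa hw.2.1, mul_pos hc hw.2.2]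
    exact (pos_iff_pos_of_mul_pos h4).1 h3

lemma Tri.rangeR (t : Tri A I M a b c) (m : Mid I M x y)
    (hb : 0 < o x b y) (hc : 0 < o x y c) : (Sc I a b x).card ≤ (L I y x).card := by
  have ob : o x y b < 0 := by rw [o_swap]; linarith
  apply Finset.card_le_card
  intro w hw
  rw [mem_Sc] at hw
  rw [mem_L]
  refine ⟨hw.1, ?_⟩
  have hax : a ≠ x := fun h => t.na (h ▸ m.hx)
  have hay : a ≠ y := fun h => t.na (h ▸ m.hy)
  have na1 := t.B.gp x (t.B.IA m.hx) y (t.B.IA m.hy) a t.ha m.hxy hax.symm hay.symm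
  rw [o_rev]
  rcases lt_or_gt_of_ne na1 with oa | oa
  · have h3 := t.xab m.hx
    have key := gp4 x y a b w
    have e2 : o x w b = - o x b w := o_swap _ _ _
    have h4 : 0 < o x a b * (- o x y w) := by
      nlinarith [mul_pos (neg_pos.2 ob) hw.2.1, mul_pos (neg_pos.2 oa) hw.2.2]
    exact (pos_iff_pos_of_mul_pos h4).1 h3
  · by_contra hcon
    have hwx : w ≠ x := by rintro rfl; simp at hw
    have hwy : w ≠ y := by
      rintro rfl
      have := hw.2.2
      linarith
    have h2 : 0 < o x y w := by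
      push Not at hcon
      have h3 : o x y w ≠ 0 := t.B.gp x (t.B.IA m.hx) y (t.B.IA m.hy) w (t.B.IA hw.1) m.hxy
        hwx.symm hwy.symm
      exact lt_of_le_of_ne (by linarith) (Ne.symm h3)
    exact t.factL m oa hc w hw.1 h2 hw.2.1

open scoped Classical in
/-- middle partners of `x` in the sector `b c` -/
noncomputable def J (I : Finset (ℝ × ℝ)) (M : ℕ) (b c x : ℝ × ℝ) : Finset (ℝ × ℝ) :=
  I.filter (fun y => (x ≠ y ∧ M - 3 ≤ (L I x y).card ∧ M - 3 ≤ (L I y x).card) ∧
    0 < o x b y ∧ 0 < o x y c)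

lemma Tri.J_card (t : Tri A I M a b c) (hx : x ∈ I) :
    (J I M b c x).card + min 3 ((Sc I c a x).card + 3 - M) +
      min 3 ((Sc I a b x).card + 3 - M) ≤ 3 := by
  classical
  have hgI : GPos I := t.B.gp.mono t.B.IA
  have hM := t.B.hM
  have hI := t.hI
  have hsum := t.sum hx
  have toMid : ∀ y ∈ J I M b c x, Mid I M x y ∧ 0 < o x b y ∧ 0 < o x y c := by
    intro y hy
    unfold J at hy
    rw [Finset.mem_filter] at hy
    exact ⟨⟨hx, hy.1, hy.2.1.1, by omega, by omega⟩, hy.2.2⟩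
  have h1 : (J I M b c x).card ≤ (Finset.Icc (max (M - 3) (Sc I c a x).card)
      (min (M - 1) (2 * M - 4 - (Sc I a b x).card))).card := by
    apply Finset.card_le_card_of_injOn (fun y => (L I x y).card)
    · intro y hy
      obtain ⟨m, hb, hc⟩ := toMid y (Finset.mem_coe.1 hy)
      have r1 := t.rangeL m hb hc
      have r2 := t.rangeR m hb hc
      have r3 := L_add hgI m.hx m.hy m.hxy
      have r4 := m.l
      have r5 := m.r
      rw [Finset.mem_coe, Finset.mem_Icc]
      show max (M - 3) (Sc I c a x).card ≤ (L I x y).card ∧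
        (L I x y).card ≤ min (M - 1) (2 * M - 4 - (Sc I a b x).card)
      omega
    · intro y hy y' hy' heq
      obtain ⟨m, hb, hc⟩ := toMid y (Finset.mem_coe.1 hy)
      obtain ⟨m', hb', hc'⟩ := toMid y' (Finset.mem_coe.1 hy')
      simp only at heq
      by_contra hne
      rcases lt_or_gt_of_ne (hgI x hx y m.hy y' m'.hy m.hxy m'.hxy hne) with h | h
      · have := t.mono m' m hb' hc' hb hc (by rw [o_swap]; linarith)
        omega
      · have := t.mono m m' hb hc hb' hc' h
        omega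
  rw [Nat.card_Icc] at h1
  omega

lemma Tri.deg_le (t : Tri A I M a b c) (hx : x ∈ I) :
    deg I (M - 3) x + 2 * (min 3 ((Sc I a b x).card + 3 - M) + min 3 ((Sc I b c x).card + 3 - M) +
      min 3 ((Sc I c a x).card + 3 - M)) ≤ 9 := by
  classical
  have h1 := t.J_card hx
  have h2 := t.rot.J_card hx
  have h3 := t.rot.rot.J_card hx
  have h4 : deg I (M - 3) x ≤ (J I M b c x).card + (J I M c a x).card + (J I M a b x).card := by
    have hsub : I.filter (fun y => x ≠ y ∧ M - 3 ≤ (L I x y).card ∧ M - 3 ≤ (L I y x).card) ⊆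
        (J I M b c x ∪ J I M c a x) ∪ J I M a b x := by
      intro y hy
      rw [Finset.mem_filter] at hy
      have hy' := t.cover hx hy.1 hy.2.1.symm
      simp only [mem_Sc] at hy'
      simp only [Finset.mem_union, J, Finset.mem_filter]
      rcases hy' with h | h | h
      · exact Or.inr ⟨hy.1, hy.2, h.2⟩
      · exact Or.inl (Or.inl ⟨hy.1, hy.2, h.2⟩)
      · exact Or.inl (Or.inr ⟨hy.1, hy.2, h.2⟩)
    have i1 := Finset.card_le_card hsub
    have i2 := Finset.card_union_le (J I M b c x ∪ J I M c a x) (J I M a b x)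
    have i3 := Finset.card_union_le (J I M b c x) (J I M c a x)
    have i4 : deg I (M - 3) x = (I.filter (fun y => x ≠ y ∧ M - 3 ≤ (L I x y).card ∧
      M - 3 ≤ (L I y x).card)).card := rfl
    omega
  omega

end tri

end Pool.Agent.TH835.G5
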