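import Mathlib
import Pool.Agent.TH835.G5.Tri

set_option autoImplicit false

namespace Pool.Agent.TH835.G5

section tri
variable {A I : Finset (ℝ × ℝ)} {M : ℕ} {a b c x y y' w : ℝ × ℝ}

/-- the upper closed side of a class-`c` pair cannot have extra points on both sides of `c` -/
lemma Tri.upper (t : Tri A I M a b c) (hx : x ∈ I) (hy : y ∈ I) (hxy : x ≠ y)
    (oc : 0 < o x y c) (hU : M ≤ (L I x y).card + 2)
    {w1 w2 : ℝ × ℝ} (hw1 : w1 ∈ I) (h11 : 0 < o x y w1) (h12 : 0 < o x c w1)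
    (hw2 : w2 ∈ I) (h21 : 0 < o x y w2) (h22 : 0 < o c y w2) : False := by
  classical
  have hcx : c ≠ x := fun h => t.nc (h ▸ hx)
  have hcy : c ≠ y := fun h => t.nc (h ▸ hy)
  set C := Rc A y x with hC
  have hsub : C ⊆ A := Finset.filter_subset _ _
  have memC : ∀ z ∈ A, 0 ≤ o x y z → z ∈ C := by
    intro z hz h
    rw [hC, mem_Rc]
    exact ⟨hz, by rw [o_rev]; linarith⟩
  have hxC : x ∈ C := memC x (t.B.IA hx) (by simp)
  have hyC : y ∈ C := memC y (t.B.IA hy) (by simp)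
  have hcC : c ∈ C := memC c t.hc oc.le
  have hw1C : w1 ∈ C := memC w1 (t.B.IA hw1) h11.le
  have hw2C : w2 ∈ C := memC w2 (t.B.IA hw2) h21.le
  have h5 : No5 C := by
    refine t.B.hyp C hsub ?_
    have h1 : (insert x (insert y (insert c (L I x y)))).card = (L I x y).card + 3 := by
      rw [Finset.card_insert_of_notMem, Finset.card_insert_of_notMem,
        Finset.card_insert_of_notMem]
      · intro h; exact t.nc (mem_L.1 h).1
      · simp only [Finset.mem_insert, mem_L, not_or]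
        exact ⟨hcy.symm, by simp⟩
      · simp only [Finset.mem_insert, mem_L, not_or]
        exact ⟨hxy, hcx.symm, by simp⟩
    have h2 : (insert x (insert y (insert c (L I x y)))) ⊆ C := by
      intro z hz
      simp only [Finset.mem_insert] at hz
      rcases hz with rfl | rfl | rfl | hz
      · exact hxC
      · exact hyC
      · exact hcC
      · rw [mem_L] at hz
        exact memC z (t.B.IA hz.1) hz.2.le
    have := Finset.card_le_card h2
    omega
  have side : ∀ z ∈ C, z ≠ x → z ≠ y → 0 < o x y z := by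
    intro z hz h1 h2
    have := t.B.side hy hx hxy.symm z hz h2 h1
    rw [o_rev] at this
    linarith
  have hgp : ∀ p ∈ C, ∀ y ∈ C, ∀ z ∈ C, y ≠ p → z ≠ p → y ≠ z → o p y z ≠ 0 :=
    fun p hp y hy z hz h1 h2 h3 => t.B.gp p (hsub hp) y (hsub hy) z (hsub hz) h1.symm h2.symm h3
  have eX : Ex C x := Ex_of_edge_left (y := y) side
  have eY : Ex C y := Ex_of_edge_right (y := x) (fun z hz h1 h2 => by
    rw [o_rev]; linarith [side z hz h2 h1])
  have eC' : Ex A c := t.rot.rot.exa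
  have eC : Ex C c := eC'.mono hsub
  obtain ⟨z1, hz1C, hz1x, hz1⟩ := exists_prev eX (hgp x hxC) ⟨y, hyC, hxy.symm⟩
  obtain ⟨z2, hz2C, hz2y, hz2⟩ := exists_next eY (hgp y hyC) ⟨x, hxC, hxy⟩
  have w1x : w1 ≠ x := by rintro rfl; simp at h12
  have w1c : w1 ≠ c := by rintro rfl; simp at h12
  have w2y : w2 ≠ y := by rintro rfl; simp at h22
  have w2c : w2 ≠ c := by rintro rfl; simp at h22
  have z1c : z1 ≠ c := by
    rintro rfl
    linarith [hz1 w1 hw1C w1x w1c]
  have z1y : z1 ≠ y := by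
    rintro rfl
    linarith [hz1 c hcC hcx hcy]
  have z2c : z2 ≠ c := by
    rintro rfl
    have := hz2 w2 hw2C w2y w2c
    rw [o_rev] at this
    linarith
  have z2x : z2 ≠ x := by
    rintro rfl
    have := hz2 c hcC hcy hcx
    rw [o_rev] at this
    linarith
  have z12 : z1 ≠ z2 := by
    rintro rfl
    have i1 := hz1 c hcC hcx z1c.symm
    have i2 := hz2 c hcC hcy z1c.symm
    have i3 := side z1 hz1C hz1x z1y
    refine eC'.not_in_tri (t.B.IA hx) (t.B.IA hy) (hsub hz1C) oc i2 ?_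
    rw [← o_rot z1 x c, o_swap]
    linarith
  have eZ1 : Ex C z1 := Ex_of_edge_left (y := x) (fun z hz h1 h2 => by
    rw [o_rev]; linarith [hz1 z hz h2 h1])
  have eZ2 : Ex C z2 := Ex_of_edge_right (y := y) (fun z hz h1 h2 => by
    rw [o_rev]; linarith [hz2 z hz h2 h1])
  exact h5.five hxC hyC hcC hz1C hz2C eX eY eC eZ1 eZ2 hxy hcx.symm hz1x.symm z2x.symm
    hcy.symm z1y.symm hz2y.symm z1c.symm z2c.symm z12

lemma Tri.pair (t : Tri A I M a b c) (hx : x ∈ I) (hy : y ∈ I) (hxy : x ≠ y)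
    (oa : o x y a < 0) (ob : o x y b < 0) (oc : 0 < o x y c)
    (h1 : (Sc I b c x).card + 1 ≤ M) (h2 : 1 ≤ (Sc I c a x).card)
    (h3 : (Sc I c a y).card + 1 ≤ M) (h4 : 1 ≤ (Sc I b c y).card) :
    (Sc I c a x).card + (Sc I b c y).card + 3 ≤ M := by
  classical
  have hgI : GPos I := t.B.gp.mono t.B.IA
  have hM := t.B.hM
  have hI := t.hI
  have hadd := L_add hgI hx hy hxy
  have hsx := t.sum hx
  have hsy := t.sum hy
  have sgn : ∀ w ∈ I, w ≠ x → w ≠ y → o x y w ≠ 0 := fun w hw h1 h2 =>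
    hgI x hx y hy w hw hxy h1.symm h2.symm
  have yx : ∀ w, o y x w = - o x y w := fun w => o_rev x y w
  -- cones
  have coneX : Sc I a b x ⊆ L I y x := by
    intro w hw
    rw [mem_Sc] at hw
    rw [mem_L, yx]
    refine ⟨hw.1, ?_⟩
    have h3 := t.xab hx
    have key := gp4 x y a b w
    have e2 : o x w b = - o x b w := o_swap _ _ _
    have h4 : 0 < o x a b * (- o x y w) := by
      nlinarith [mul_pos (neg_pos.2 ob) hw.2.1, mul_pos (neg_pos.2 oa) hw.2.2]
    exact (pos_iff_pos_of_mul_pos h4).1 h3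
  have coneY : Sc I a b y ⊆ L I y x := by
    intro w hw
    rw [mem_Sc] at hw
    rw [mem_L]
    refine ⟨hw.1, ?_⟩
    have h3 := t.xab hy
    have key := gp4 y x a b w
    have e2 : o y w b = - o y b w := o_swap _ _ _
    have ya := yx a
    have yb := yx b
    have pa : 0 < o y x a := by linarith
    have pb : 0 < o y x b := by linarith
    have h4 : 0 < o y a b * o y x w := by
      nlinarith [mul_pos pb hw.2.1, mul_pos pa hw.2.2]
    exact (pos_iff_pos_of_mul_pos h4).1 h3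
  have neY : ∀ w, w ∈ Sc I c a x → w ≠ y ∧ w ≠ x := by
    intro w hw
    rw [mem_Sc] at hw
    constructor
    · rintro rfl
      have := hw.2.1
      rw [o_swap] at this
      linarith
    · rintro rfl; simp at hw
  have neX : ∀ w, w ∈ Sc I b c y → w ≠ y ∧ w ≠ x := by
    intro w hw
    rw [mem_Sc] at hw
    constructor
    · rintro rfl; simp at hw
    · rintro rfl
      have := hw.2.1
      rw [← o_rot y b w] at this
      have e : o b w y = o w y b := (o_rot b w y).symm
      linarith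
  have hcyc : ∀ w, o c y w = o y w c := fun w => (o_rot c y w).symm
  have haxw : ∀ w, o a x w = o x w a := fun w => (o_rot a x w).symm
  by_cases hU : M ≤ (L I x y).card + 2
  · exfalso
    by_cases hL : ∃ w1 ∈ I, 0 < o x y w1 ∧ 0 < o x c w1
    · obtain ⟨w1, hw1, h11, h12⟩ := hL
      have hR : ∀ w2 ∈ I, 0 < o x y w2 → ¬ 0 < o c y w2 := fun w2 hw2 h21 h22 =>
        t.upper hx hy hxy oc hU hw1 h11 h12 hw2 h21 h22
      -- sectors b c and a b from y are on the right
      have s1 : Sc I b c y ⊆ L I y x := by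
        intro w hw
        have hne := neX w hw
        rw [mem_Sc] at hw
        rw [mem_L, yx]
        refine ⟨hw.1, ?_⟩
        have h5 := hR w hw.1
        rw [hcyc] at h5
        rcases lt_or_gt_of_ne (sgn w hw.1 hne.2 hne.1) with h | h
        · linarith
        · exact absurd hw.2.2 (h5 h)
      have s2 : (Sc I b c y).card + (Sc I a b y).card ≤ (L I y x).card := by
        rw [← Finset.card_union_of_disjoint (Sc_disj a b c).symm]
        exact Finset.card_le_card (Finset.union_subset s1 coneY)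
      have m : Mid I M x y := ⟨hx, hy, hxy, by omega, by omega⟩
      obtain ⟨w, hw⟩ := Finset.card_pos.1 (by omega : 0 < (Sc I b c y).card)
      have hw' := s1 hw
      rw [mem_L, yx] at hw'
      rw [mem_Sc] at hw
      exact (t.factR m.R oa ob).2 w hw.1 (by linarith [hw'.2]) hw.2.1
    · push Not at hL
      have s1 : Sc I c a x ⊆ L I y x := by
        intro w hw
        have hne := neY w hw
        rw [mem_Sc] at hw
        rw [mem_L, yx]
        refine ⟨hw.1, ?_⟩
        rcases lt_or_gt_of_ne (sgn w hw.1 hne.2 hne.1) with h | h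
        · linarith
        · have := hL w hw.1 h
          linarith [hw.2.1]
      have s2 : (Sc I c a x).card + (Sc I a b x).card ≤ (L I y x).card := by
        rw [← Finset.card_union_of_disjoint (Sc_disj c a b)]
        exact Finset.card_le_card (Finset.union_subset s1 coneX)
      have m : Mid I M x y := ⟨hx, hy, hxy, by omega, by omega⟩
      obtain ⟨w, hw⟩ := Finset.card_pos.1 (by omega : 0 < (Sc I c a x).card)
      have hw' := s1 hw
      rw [mem_L, yx] at hw'
      rw [mem_Sc] at hw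
      refine (t.factR m.R oa ob).1 w hw.1 (by linarith [hw'.2]) ?_
      rw [haxw]; exact hw.2.2
  · have m : MidR I M x y := ⟨hx, hy, hxy, by omega⟩
    have f := t.factR m oa ob
    have s1 : Sc I c a x ⊆ L I x y := by
      intro w hw
      have hne := neY w hw
      rw [mem_Sc] at hw
      rw [mem_L]
      refine ⟨hw.1, ?_⟩
      rcases lt_or_gt_of_ne (sgn w hw.1 hne.2 hne.1) with h | h
      · exact absurd (by rw [haxw]; exact hw.2.2) (f.1 w hw.1 h)
      · exact h
    have s2 : Sc I b c y ⊆ L I x y := by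
      intro w hw
      have hne := neX w hw
      rw [mem_Sc] at hw
      rw [mem_L]
      refine ⟨hw.1, ?_⟩
      rcases lt_or_gt_of_ne (sgn w hw.1 hne.2 hne.1) with h | h
      · exact absurd hw.2.1 (f.2 w hw.1 h)
      · exact h
    have hd : Disjoint (Sc I c a x) (Sc I b c y) := by
      rw [Finset.disjoint_left]
      intro w h5 h6
      rw [mem_Sc] at h5 h6
      have eC' : Ex A c := t.rot.rot.exa
      refine eC'.not_in_tri (t.B.IA hx) (t.B.IA hy) (t.B.IA h5.1) oc h6.2.2 ?_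
      rw [← o_rot w x c]
      exact h5.2.1
    have s3 : (Sc I c a x).card + (Sc I b c y).card ≤ (L I x y).card := by
      rw [← Finset.card_union_of_disjoint hd]
      exact Finset.card_le_card (Finset.union_subset s1 s2)
    omega

/-- every pair of points has, up to swapping, exactly one hull vertex on its left -/
lemma Tri.signs (t : Tri A I M a b c) (hx : x ∈ I) (hy : y ∈ I) (hxy : x ≠ y) :
    (o x y a < 0 ∧ o x y b < 0 ∧ 0 < o x y c) ∨ (o x y b < 0 ∧ o x y c < 0 ∧ 0 < o x y a) ∨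
    (o x y c < 0 ∧ o x y a < 0 ∧ 0 < o x y b) ∨
    (o y x a < 0 ∧ o y x b < 0 ∧ 0 < o y x c) ∨ (o y x b < 0 ∧ o y x c < 0 ∧ 0 < o y x a) ∨
    (o y x c < 0 ∧ o y x a < 0 ∧ 0 < o y x b) := by
  have hax : a ≠ x := fun h => t.na (h ▸ hx)
  have hay : a ≠ y := fun h => t.na (h ▸ hy)
  have hbx : b ≠ x := fun h => t.nb (h ▸ hx)
  have hby : b ≠ y := fun h => t.nb (h ▸ hy)
  have hcx : c ≠ x := fun h => t.nc (h ▸ hx)
  have hcy : c ≠ y := fun h => t.nc (h ▸ hy)
  have na := t.B.gp x (t.B.IA hx) y (t.B.IA hy) a t.ha hxy hax.symm hay.symm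
  have nb := t.B.gp x (t.B.IA hx) y (t.B.IA hy) b t.hb hxy hbx.symm hby.symm
  have nc := t.B.gp x (t.B.IA hx) y (t.B.IA hy) c t.hc hxy hcx.symm hcy.symm
  have h1 := t.xab hx
  have h2 := t.rot.xab hx
  have h3 := t.rot.rot.xab hx
  have key : o x b c * o x y a + o x c a * o x y b + o x a b * o x y c = 0 := by unfold o; ring
  rw [o_rev x y a, o_rev x y b, o_rev x y c]
  rcases lt_or_gt_of_ne na with ha | ha
  · rcases lt_or_gt_of_ne nb with hb | hb
    · rcases lt_or_gt_of_ne nc with hc | hc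
      · exfalso
        nlinarith [mul_pos h2 (neg_pos.2 ha), mul_pos h3 (neg_pos.2 hb), mul_pos h1 (neg_pos.2 hc)]
      · exact Or.inl ⟨ha, hb, hc⟩
    · rcases lt_or_gt_of_ne nc with hc | hc
      · exact Or.inr (Or.inr (Or.inl ⟨hc, ha, hb⟩))
      · exact Or.inr (Or.inr (Or.inr (Or.inr (Or.inl ⟨by linarith, by linarith, by linarith⟩))))
  · rcases lt_or_gt_of_ne nb with hb | hb
    · rcases lt_or_gt_of_ne nc with hc | hc
      · exact Or.inr (Or.inl ⟨hb, hc, ha⟩)
      · exact Or.inr (Or.inr (Or.inr (Or.inr (Or.inr ⟨by linarith, by linarith, by linarith⟩))))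
    · rcases lt_or_gt_of_ne nc with hc | hc
      · exact Or.inr (Or.inr (Or.inr (Or.inl ⟨by linarith, by linarith, by linarith⟩)))
      · exfalso
        nlinarith [mul_pos h2 ha, mul_pos h3 hb, mul_pos h1 hc]

theorem Tri.false (t : Tri A I M a b c) : False := by
  classical
  have hM := t.B.hM
  have hI := t.hI
  have h1 := mid_lower' (Q := I) (k := M - 3) (t.B.gp.mono t.B.IA) (by
    intro S hS hc
    exact t.B.hyp S (hS.trans t.B.IA) (by omega))
  -- the weights
  let δ : ℝ × ℝ → ℕ := fun x => min 3 ((Sc I a b x).card + 3 - M) +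
    min 3 ((Sc I b c x).card + 3 - M) + min 3 ((Sc I c a x).card + 3 - M)
  let w : ℝ × ℝ → ℤ := fun x => 3 - (δ x : ℤ)
  let e1 : ℝ × ℝ → ℤ := fun x => (M : ℤ) - 1 - (Sc I b c x).card
  let e2 : ℝ × ℝ → ℤ := fun x => (M : ℤ) - 1 - (Sc I c a x).card
  let e3 : ℝ × ℝ → ℤ := fun x => (M : ℤ) - 1 - (Sc I a b x).card
  set Z := I.filter (fun x => δ x ≤ 2) with hZ
  have cent : ∀ x ∈ Z, x ∈ I ∧ (Sc I a b x).card + 1 ≤ M ∧ (Sc I b c x).card + 1 ≤ M ∧
      (Sc I c a x).card + 1 ≤ M ∧ 1 ≤ (Sc I a b x).card ∧ 1 ≤ (Sc I b c x).card ∧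
      1 ≤ (Sc I c a x).card := by
    intro x hx
    rw [hZ, Finset.mem_filter] at hx
    have hs := t.sum hx.1
    have hd : min 3 ((Sc I a b x).card + 3 - M) + min 3 ((Sc I b c x).card + 3 - M) +
      min 3 ((Sc I c a x).card + 3 - M) ≤ 2 := hx.2
    refine ⟨hx.1, ?_⟩
    omega
  have hPt : ∀ x ∈ Z, Pt (M : ℤ) (e1 x) (e2 x) (e3 x) (w x) := by
    intro x hx
    obtain ⟨hxI, c1, c2, c3, c4, c5, c6⟩ := cent x hx
    rw [hZ, Finset.mem_filter] at hx
    have hs := t.sum hx.1
    have hd : min 3 ((Sc I a b x).card + 3 - M) + min 3 ((Sc I b c x).card + 3 - M) +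
      min 3 ((Sc I c a x).card + 3 - M) ≤ 2 := hx.2
    have hw : w x = 3 - ((min 3 ((Sc I a b x).card + 3 - M) + min 3 ((Sc I b c x).card + 3 - M) +
      min 3 ((Sc I c a x).card + 3 - M) : ℕ) : ℤ) := rfl
    have he1 : e1 x = (M : ℤ) - 1 - (Sc I b c x).card := rfl
    have he2 : e2 x = (M : ℤ) - 1 - (Sc I c a x).card := rfl
    have he3 : e3 x = (M : ℤ) - 1 - (Sc I a b x).card := rfl
    rw [hw, he1, he2, he3]
    constructor <;> omega
  have hCp : ∀ x ∈ Z, ∀ y ∈ Z, x ≠ y → Cp (M : ℤ) (e1 x) (e2 x) (e3 x) (e1 y) (e2 y) (e3 y) := by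
    intro x hx y hy hxy
    obtain ⟨hxI, c1, c2, c3, c4, c5, c6⟩ := cent x hx
    obtain ⟨hyI, d1, d2, d3, d4, d5, d6⟩ := cent y hy
    have he1 : ∀ x, e1 x = (M : ℤ) - 1 - (Sc I b c x).card := fun _ => rfl
    have he2 : ∀ x, e2 x = (M : ℤ) - 1 - (Sc I c a x).card := fun _ => rfl
    have he3 : ∀ x, e3 x = (M : ℤ) - 1 - (Sc I a b x).card := fun _ => rfl
    unfold Cp
    rw [he1, he2, he3, he1, he2, he3]
    rcases t.signs hxI hyI hxy with h | h | h | h | h | h
    · have := t.pair hxI hyI hxy h.1 h.2.1 h.2.2 c2 c6 d3 d5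
      omega
    · have := t.rot.pair hxI hyI hxy h.1 h.2.1 h.2.2 c3 c4 d1 d6
      omega
    · have := t.rot.rot.pair hxI hyI hxy h.1 h.2.1 h.2.2 c1 c5 d2 d4
      omega
    · have := t.pair hyI hxI hxy.symm h.1 h.2.1 h.2.2 d2 d6 c3 c5
      omega
    · have := t.rot.pair hyI hxI hxy.symm h.1 h.2.1 h.2.2 d3 d4 c1 c6
      omega
    · have := t.rot.rot.pair hyI hxI hxy.symm h.1 h.2.1 h.2.2 d1 d5 c2 c4
      omega
  have hcomb := comb (M : ℤ) (by exact_mod_cast hM) Z e1 e2 e3 w hPt hCp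
  -- sum of degrees
  have hdeg : ∀ x ∈ I, (deg I (M - 3) x : ℤ) ≤ 3 + 2 * w x := by
    intro x hx
    have := t.deg_le hx
    have hw : w x = 3 - ((min 3 ((Sc I a b x).card + 3 - M) + min 3 ((Sc I b c x).card + 3 - M) +
      min 3 ((Sc I c a x).card + 3 - M) : ℕ) : ℤ) := rfl
    rw [hw]
    omega
  have hsum1 : ((∑ x ∈ I, deg I (M - 3) x : ℕ) : ℤ) ≤ ∑ x ∈ I, (3 + 2 * w x) := by
    rw [Nat.cast_sum]
    exact Finset.sum_le_sum hdeg
  have hsum2 : ∑ x ∈ I, (3 + 2 * w x) = 3 * (I.card : ℤ) + 2 * ∑ x ∈ I, w x := by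
    rw [Finset.sum_add_distrib, Finset.sum_const, ← Finset.mul_sum, nsmul_eq_mul]
    ring
  have hsum3 : ∑ x ∈ I, w x ≤ ∑ x ∈ Z, w x := by
    rw [hZ, Finset.sum_filter]
    apply Finset.sum_le_sum
    intro x _
    split_ifs with h
    · exact le_rfl
    · have hw : w x = 3 - (δ x : ℤ) := rfl
      rw [hw]; omega
  obtain ⟨k, rfl⟩ : ∃ k, M = k + 4 := ⟨M - 4, by omega⟩
  have hc : I.card = 2 * k + 6 := by omega
  have h3 : k + 4 - 3 = k + 1 := by omega
  rw [h3] at h1 hsum1
  rw [hc] at h1 hsum2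
  have h1' : ((2 * k + 6) * (2 * k + 6) : ℤ) ≤ (2 * k + 6) +
      ((∑ x ∈ I, deg I (k + 1) x : ℕ) : ℤ) + 4 * (k + 1) * (k + 1 + 1) := by
    exact_mod_cast h1
  push_cast at hcomb hsum2 hsum1 h1'
  nlinarith

end tri

end Pool.Agent.TH835.G5
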