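import Mathlib
import Pool.Agent.TH835.G5.TriEnd

set_option autoImplicit false

namespace Pool.Agent.TH835.G5

lemma collinear_of_o {a b c : ℝ × ℝ} (hab : a ≠ b) (h : o a b c = 0) :
    Collinear ℝ ({a, b, c} : Set (ℝ × ℝ)) := by
  rw [collinear_iff_of_mem (p₀ := a) (by simp)]
  refine ⟨b - a, ?_⟩
  unfold o at h
  have hne : b.1 - a.1 ≠ 0 ∨ b.2 - a.2 ≠ 0 := by
    by_contra hcon
    push Not at hcon
    exact hab (Prod.ext (by linarith [hcon.1]) (by linarith [hcon.2]))
  intro p hp
  simp only [Set.mem_insert_iff, Set.mem_singleton_iff] at hp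
  rcases hp with rfl | rfl | rfl
  · exact ⟨0, by simp⟩
  · exact ⟨1, by simp⟩
  · rcases hne with h1 | h1
    · refine ⟨(p.1 - a.1) / (b.1 - a.1), ?_⟩
      apply Prod.ext
      · simp only [vadd_eq_add, Prod.fst_add, Prod.smul_fst, Prod.fst_sub, smul_eq_mul]
        field_simp; ring
      · simp only [vadd_eq_add, Prod.snd_add, Prod.smul_snd, Prod.snd_sub, smul_eq_mul]
        field_simp; linarith
    · refine ⟨(p.2 - a.2) / (b.2 - a.2), ?_⟩
      apply Prod.ext
      · simp only [vadd_eq_add, Prod.fst_add, Prod.smul_fst, Prod.fst_sub, smul_eq_mul]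
        field_simp; linarith
      · simp only [vadd_eq_add, Prod.snd_add, Prod.smul_snd, Prod.snd_sub, smul_eq_mul]
        field_simp; ring

lemma o_of_collinear {a b c : ℝ × ℝ} (h : Collinear ℝ ({a, b, c} : Set (ℝ × ℝ))) :
    o a b c = 0 := by
  rw [collinear_iff_of_mem (p₀ := a) (by simp)] at h
  obtain ⟨v, hv⟩ := h
  obtain ⟨r, hr⟩ := hv b (by simp)
  obtain ⟨s, hs⟩ := hv c (by simp)
  rw [hr, hs]
  unfold o
  simp only [vadd_eq_add, Prod.fst_add, Prod.smul_fst, Prod.snd_add, Prod.smul_snd, smul_eq_mul]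
  ring

/-- no counterexample -/
theorem core {A : Finset (ℝ × ℝ)} {M : ℕ} (hM : 4 ≤ M) (hg : GPos A) (hc : A.card = 2 * M + 1)
    (hyp : ∀ S ⊆ A, M + 1 ≤ S.card → No5 S) : False := by
  classical
  have hne : A.Nonempty := Finset.card_pos.1 (by omega)
  obtain ⟨a, ha, ea⟩ := exists_Ex hne
  have other : ∀ p : ℝ × ℝ, ∃ y ∈ A, y ≠ p := by
    intro p
    by_contra hcon
    push Not at hcon
    have : A ⊆ {p} := by
      intro z hz
      rw [Finset.mem_singleton]
      exact hcon z hz
    have := Finset.card_le_card this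
    rw [Finset.card_singleton] at this
    omega
  have third : ∀ p q : ℝ × ℝ, ∃ y ∈ A, y ≠ p ∧ y ≠ q := by
    intro p q
    by_contra hcon
    push Not at hcon
    have : A ⊆ {p, q} := by
      intro z hz
      rw [Finset.mem_insert, Finset.mem_singleton]
      by_cases h : z = p
      · exact Or.inl h
      · exact Or.inr (hcon z hz h)
    have := Finset.card_le_card this
    have := Finset.card_le_two (a := p) (b := q)
    omega
  have hgx : ∀ x ∈ A, ∀ y ∈ A, ∀ z ∈ A, y ≠ x → z ≠ x → y ≠ z → o x y z ≠ 0 :=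
    fun x hx y hy z hz h1 h2 h3 => hg x hx y hy z hz h1.symm h2.symm h3
  have nextEx : ∀ x y, (∀ w ∈ A, w ≠ x → w ≠ y → 0 < o x y w) → Ex A y := by
    intro x y h
    exact Ex_of_edge_right (y := x) (fun z hz h1 h2 => by
      rw [o_rev]; linarith [h z hz h2 h1])
  have noback : ∀ x y, (∀ w ∈ A, w ≠ x → w ≠ y → 0 < o x y w) →
      (∀ w ∈ A, w ≠ y → w ≠ x → 0 < o y x w) → False := by
    intro x y h1 h2
    obtain ⟨w, hw, hwx, hwy⟩ := third x y
    have i1 := h1 w hw hwx hwy
    have i2 := h2 w hw hwy hwx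
    rw [o_rev] at i2
    linarith
  obtain ⟨b, hb, hba, eab⟩ := exists_next ea (hgx a ha) (other a)
  have eb := nextEx a b eab
  obtain ⟨c, hcA, hcb, ebc⟩ := exists_next eb (hgx b hb) (other b)
  have ec := nextEx b c ebc
  have hca : c ≠ a := by
    rintro rfl
    exact noback c b eab ebc
  obtain ⟨d, hd, hdc, ecd⟩ := exists_next ec (hgx c hcA) (other c)
  have ed := nextEx c d ecd
  have hdb : d ≠ b := by
    rintro rfl
    exact noback d c ebc ecd
  by_cases hda : d = a
  · subst hda
    have t : Tri A (((A.erase d).erase b).erase c) M d b c := by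
      refine ⟨⟨hg, hyp, hM, ?_⟩, ha, hb, hcA, ?_, ?_, ?_, hba.symm, hca.symm, hcb.symm, eab, ebc,
        ecd, ?_⟩
      · exact (Finset.erase_subset _ _).trans ((Finset.erase_subset _ _).trans
          (Finset.erase_subset _ _))
      · simp
      · simp
      · simp
      · rw [Finset.card_erase_of_mem, Finset.card_erase_of_mem, Finset.card_erase_of_mem ha]
        · omega
        · simp [hb, hba]
        · simp [hcA, hcb, hca]
    exact t.false
  · obtain ⟨e, he, hed, ede⟩ := exists_next ed (hgx d hd) (other d)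
    have ee := nextEx d e ede
    have hec : e ≠ c := by
      rintro rfl
      exact noback e d ecd ede
    by_cases hea : e = a
    · subst hea
      have q : Quad A ((((A.erase e).erase b).erase c).erase d) M e b c d := by
        refine ⟨⟨hg, hyp, hM, ?_⟩, ha, hb, hcA, hd, ?_, ?_, ?_, ?_, hba.symm, hca.symm,
          (Ne.symm hda), hcb.symm, hdb.symm, hdc.symm, eab, ebc, ecd, ede⟩
        · exact (Finset.erase_subset _ _).trans ((Finset.erase_subset _ _).trans
            ((Finset.erase_subset _ _).trans (Finset.erase_subset _ _)))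
        · simp
        · simp
        · simp
        · simp
      refine q.false ?_
      rw [Finset.card_erase_of_mem, Finset.card_erase_of_mem, Finset.card_erase_of_mem,
        Finset.card_erase_of_mem ha]
      · omega
      · simp [hb, hba]
      · simp [hcA, hcb, hca]
      · simp [hd, hdb, hdc, hda]
    · have heb : e ≠ b := by
        rintro rfl
        have i1 := eab d hd hda hdb
        have i2 := ede a ha (Ne.symm hda) hba.symm
        rw [← o_rot d e a, o_rev] at i2
        linarith
      exact (hyp A subset_rfl (by omega)).five ha hb hcA hd he ea eb ec ed ee hba.symm hca.symm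
        (Ne.symm hda) (Ne.symm hea) hcb.symm hdb.symm heb.symm hdc.symm hec.symm hed.symm

theorem upper (n : ℕ) (hn : 5 ≤ n) (A : Finset (ℝ × ℝ)) (hA : A.card = 2 * n - 1)
    (hcol : ∀ a ∈ A, ∀ b ∈ A, ∀ c ∈ A, a ≠ b → a ≠ c → b ≠ c →
      ¬ Collinear ℝ ({a, b, c} : Set (ℝ × ℝ))) :
    ∃ S ⊆ A, S.card = n ∧
      5 ≤ (Set.extremePoints ℝ (convexHull ℝ (S : Set (ℝ × ℝ)))).ncard := by
  classical
  by_contra hcon
  push Not at hcon
  have hg : GPos A := by
    intro a ha b hb c hc hab hac hbc h0
    exact hcol a ha b hb c hc hab hac hbc (collinear_of_o hab h0)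
  refine core (M := n - 1) (by omega) hg (by omega) ?_
  intro S hS hcS T hT hE
  by_contra h5
  push Not at h5
  obtain ⟨T', hT', hcT'⟩ := Finset.exists_subset_card_eq (show 5 ≤ T.card by omega)
  obtain ⟨U, hTU, hUS, hcU⟩ := Finset.exists_subsuperset_card_eq (hT'.trans hT)
    (show T'.card ≤ n by omega) (show n ≤ S.card by omega)
  have h1 := hcon U (hUS.trans hS) hcU
  have h2 := five_le_ncard hTU (fun x hx => (hE x (hT' hx)).mono hUS) (by omega)
  omega

end Pool.Agent.TH835.G5
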