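import Mathlib
import Pool.Agent.TH835.G5.Upper

set_option autoImplicit false

namespace Pool.Agent.TH835.G5

/-- point of the hyperbola -/
noncomputable def hp (t : ℝ) : ℝ × ℝ := (t, 1 / t)

lemma hp_conv {S : Set (ℝ × ℝ)} {u v s w : ℝ} (hu : hp u ∈ S) (hv : hp v ∈ S) (hs : hp s ∈ S)
    (u0 : u ≠ 0) (v0 : v ≠ 0) (s0 : s ≠ 0) (w0 : w ≠ 0) (huv : v - u ≠ 0) (hus : s - u ≠ 0)
    (hvs : s - v ≠ 0)
    (hα : 0 ≤ (v - w) * (s - w) * u / ((v - u) * (s - u) * w))
    (hβ : 0 ≤ (w - u) * (s - w) * v / ((v - u) * (s - v) * w))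
    (hγ : 0 ≤ (w - u) * (w - v) * s / ((s - u) * (s - v) * w)) :
    hp w ∈ convexHull ℝ S := by
  set α := (v - w) * (s - w) * u / ((v - u) * (s - u) * w) with hαd
  set β := (w - u) * (s - w) * v / ((v - u) * (s - v) * w) with hβd
  set γ := (w - u) * (w - v) * s / ((s - u) * (s - v) * w) with hγd
  have hsum : α + β + γ = 1 := by
    rw [hαd, hβd, hγd]; field_simp; ring
  have h1 : α * u + β * v + γ * s = w := by
    rw [hαd, hβd, hγd]; field_simp; ring
  have h2 : α * (1 / u) + β * (1 / v) + γ * (1 / s) = 1 / w := by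
    rw [hαd, hβd, hγd]; field_simp; ring
  have hw : hp w = α • hp u + β • hp v + γ • hp s := by
    apply Prod.ext
    · simp only [hp, Prod.fst_add, Prod.smul_fst, smul_eq_mul]
      rw [h1]
    · simp only [hp, Prod.snd_add, Prod.smul_snd, smul_eq_mul]
      rw [h2]
  rw [hw]
  have hconv := convex_convexHull ℝ S
  have := hconv.sum_mem (t := Finset.univ) (w := ![α, β, γ]) (z := ![hp u, hp v, hp s])
    (by intro i _; fin_cases i <;> simp [hα, hβ, hγ])
    (by simp [Fin.sum_univ_three, hsum])
    (by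
      intro i _
      fin_cases i
      · exact subset_convexHull ℝ S hu
      · exact subset_convexHull ℝ S hv
      · exact subset_convexHull ℝ S hs)
  simpa [Fin.sum_univ_three] using this

lemma not_extreme {S : Set (ℝ × ℝ)} {w : ℝ × ℝ} (h : w ∈ convexHull ℝ (S \ {w})) :
    w ∉ Set.extremePoints ℝ (convexHull ℝ S) := by
  intro hw
  have h1 : convexHull ℝ S = convexHull ℝ (S \ {w}) := by
    apply subset_antisymm
    · apply convexHull_min _ (convex_convexHull ℝ _)
      intro z hz
      by_cases hzw : z = w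
      · rw [hzw]; exact h
      · exact subset_convexHull ℝ _ ⟨hz, hzw⟩
    · exact convexHull_mono Set.sdiff_subset
  rw [h1] at hw
  have := extremePoints_convexHull_subset hw
  exact this.2 rfl

/-- `2M` points on the two branches of a hyperbola -/
noncomputable def HP (M : ℕ) : Finset (ℝ × ℝ) :=
  ((Finset.Icc (-(M : ℤ)) M).erase 0).image (fun t : ℤ => hp (t : ℝ))

lemma hp_inj {s t : ℝ} (h : hp s = hp t) : s = t := congrArg Prod.fst h

lemma HP_card (M : ℕ) : (HP M).card = 2 * M := by
  unfold HP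
  rw [Finset.card_image_of_injective]
  · rw [Finset.card_erase_of_mem (by simp), Int.card_Icc]
    omega
  · intro s t h
    exact_mod_cast hp_inj h

lemma mem_HP {M : ℕ} {p : ℝ × ℝ} (h : p ∈ HP M) : ∃ t : ℤ, t ≠ 0 ∧ -(M : ℤ) ≤ t ∧ t ≤ M ∧
    p = hp (t : ℝ) := by
  unfold HP at h
  rw [Finset.mem_image] at h
  obtain ⟨t, ht, rfl⟩ := h
  rw [Finset.mem_erase, Finset.mem_Icc] at ht
  exact ⟨t, ht.1, ht.2.1, ht.2.2, rfl⟩

lemma HP_gp (M : ℕ) : GPos (HP M) := by
  intro a ha b hb c hc hab hac hbc h0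
  obtain ⟨x, hx, _, _, rfl⟩ := mem_HP ha
  obtain ⟨y, hy, _, _, rfl⟩ := mem_HP hb
  obtain ⟨z, hz, _, _, rfl⟩ := mem_HP hc
  have hx' : (x : ℝ) ≠ 0 := by exact_mod_cast hx
  have hy' : (y : ℝ) ≠ 0 := by exact_mod_cast hy
  have hz' : (z : ℝ) ≠ 0 := by exact_mod_cast hz
  have hxy : (x : ℝ) - y ≠ 0 := fun h => hab (by rw [sub_eq_zero.1 h])
  have hxz : (x : ℝ) - z ≠ 0 := fun h => hac (by rw [sub_eq_zero.1 h])
  have hyz : (y : ℝ) - z ≠ 0 := fun h => hbc (by rw [sub_eq_zero.1 h])
  have key : o (hp x) (hp y) (hp z) * (x * y * z) = - ((x - y) * (x - z) * (y - z)) := by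
    unfold o hp
    field_simp
    ring
  rw [h0, zero_mul] at key
  have := mul_ne_zero (mul_ne_zero hxy hxz) hyz
  apply this
  linarith

lemma HP_few {M : ℕ} {S : Finset (ℝ × ℝ)} (hS : S ⊆ HP M) (hc : M < S.card) :
    (Set.extremePoints ℝ (convexHull ℝ (S : Set (ℝ × ℝ)))).ncard ≤ 4 := by
  classical
  set Sp := S.filter (fun p => 0 < p.1) with hSp
  set Sn := S.filter (fun p => ¬ 0 < p.1) with hSn
  have hadd : Sp.card + Sn.card = S.card := Finset.card_filter_add_card_filter_not _
  have cp : Sp.card ≤ M := by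
    have : Sp ⊆ (Finset.Icc (1 : ℤ) M).image (fun t : ℤ => hp (t : ℝ)) := by
      intro p hp'
      rw [hSp, Finset.mem_filter] at hp'
      obtain ⟨t, h1, h2, h3, rfl⟩ := mem_HP (hS hp'.1)
      have h4 : (0 : ℝ) < t := hp'.2
      have h5 : (0 : ℤ) < t := by exact_mod_cast h4
      exact Finset.mem_image_of_mem _ (Finset.mem_Icc.2 ⟨by omega, h3⟩)
    have h1 := Finset.card_le_card this
    have h2 := Finset.card_image_le (s := Finset.Icc (1 : ℤ) M) (f := fun t : ℤ => hp (t : ℝ))
    rw [Int.card_Icc] at h2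
    omega
  have cn : Sn.card ≤ M := by
    have : Sn ⊆ (Finset.Icc (-(M : ℤ)) (-1)).image (fun t : ℤ => hp (t : ℝ)) := by
      intro p hp'
      rw [hSn, Finset.mem_filter] at hp'
      obtain ⟨t, h1, h2, h3, rfl⟩ := mem_HP (hS hp'.1)
      have h4 : ¬ (0 : ℝ) < t := hp'.2
      have h5 : ¬ (0 : ℤ) < t := by exact_mod_cast h4
      exact Finset.mem_image_of_mem _ (Finset.mem_Icc.2 ⟨h2, by omega⟩)
    have h1 := Finset.card_le_card this
    have h2 := Finset.card_image_le (s := Finset.Icc (-(M : ℤ)) (-1)) (f := fun t : ℤ => hp (t : ℝ))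
    rw [Int.card_Icc] at h2
    omega
  have np : Sp.Nonempty := Finset.card_pos.1 (by omega)
  have nn : Sn.Nonempty := Finset.card_pos.1 (by omega)
  obtain ⟨u, hu, hum⟩ := Sp.exists_max_image (fun p => p.1) np
  obtain ⟨v, hv, hvm⟩ := Sp.exists_min_image (fun p => p.1) np
  obtain ⟨u', hu', hum'⟩ := Sn.exists_min_image (fun p => p.1) nn
  obtain ⟨v', hv', hvm'⟩ := Sn.exists_max_image (fun p => p.1) nn
  have form : ∀ p ∈ S, p = hp p.1 ∧ p.1 ≠ 0 := by
    intro p hp'
    obtain ⟨t, h1, h2, h3, rfl⟩ := mem_HP (hS hp')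
    exact ⟨rfl, by show (t : ℝ) ≠ 0; exact_mod_cast h1⟩
  have hpos : ∀ p ∈ Sp, p ∈ S ∧ 0 < p.1 := fun p h => Finset.mem_filter.1 h
  have hneg : ∀ p ∈ Sn, p ∈ S ∧ p.1 < 0 := by
    intro p h
    have h1 := Finset.mem_filter.1 h
    refine ⟨h1.1, ?_⟩
    have h2 := (form p h1.1).2
    have h3 := h1.2
    push Not at h3
    exact lt_of_le_of_ne h3 h2
  have hsub : Set.extremePoints ℝ (convexHull ℝ (S : Set (ℝ × ℝ))) ⊆
      (({u, v, u', v'} : Finset (ℝ × ℝ)) : Set (ℝ × ℝ)) := by
    intro w hw
    have hwS : w ∈ S := by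
      have := extremePoints_convexHull_subset hw
      exact_mod_cast this
    by_contra hcon
    simp only [Finset.coe_insert, Finset.coe_singleton, Set.mem_insert_iff,
      Set.mem_singleton_iff, not_or] at hcon
    obtain ⟨nu, nv, nu', nv'⟩ := hcon
    apply not_extreme _ hw
    obtain ⟨fw, w0⟩ := form w hwS
    have strict : ∀ p ∈ S, p.1 = w.1 → p = w := by
      intro p hp' h
      rw [(form p hp').1, h]; exact fw.symm
    have inS : ∀ p ∈ S, w ≠ p → hp p.1 ∈ (S : Set (ℝ × ℝ)) \ {w} := by
      intro p hp' hne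
      rw [← (form p hp').1]
      exact ⟨hp', fun h => hne (by simpa using h.symm)⟩
    rw [fw]
    rw [← fw]
    by_cases hw1 : 0 < w.1
    · have hwp : w ∈ Sp := Finset.mem_filter.2 ⟨hwS, hw1⟩
      have h1 : w.1 < u.1 := lt_of_le_of_ne (hum w hwp) (fun h => nu (strict u (hpos u hu).1 h.symm).symm)
      have h2 : v.1 < w.1 := lt_of_le_of_ne (hvm w hwp) (fun h => nv (strict v (hpos v hv).1 h).symm)
      have h3 := (hneg u' hu').2
      have h4 := (hpos v hv).2
      have h5 := (hpos u hu).2
      have := hp_conv (inS u (hpos u hu).1 nu) (inS v (hpos v hv).1 nv)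
        (inS u' (hneg u' hu').1 nu') h5.ne' h4.ne' h3.ne w0 (by linarith) (by linarith)
        (by linarith)
        (by
          apply div_nonneg
          · have := mul_nonneg_of_nonpos_of_nonpos (show v.1 - w.1 ≤ 0 by linarith)
              (show u'.1 - w.1 ≤ 0 by linarith)
            positivity
          · have := mul_nonneg_of_nonpos_of_nonpos (show v.1 - u.1 ≤ 0 by linarith)
              (show u'.1 - u.1 ≤ 0 by linarith)
            positivity)
        (by
          apply div_nonneg
          · have := mul_nonneg_of_nonpos_of_nonpos (show w.1 - u.1 ≤ 0 by linarith)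
              (show u'.1 - w.1 ≤ 0 by linarith)
            positivity
          · have := mul_nonneg_of_nonpos_of_nonpos (show v.1 - u.1 ≤ 0 by linarith)
              (show u'.1 - v.1 ≤ 0 by linarith)
            positivity)
        (by
          apply div_nonneg
          · have := mul_nonneg_of_nonpos_of_nonpos
              (show (w.1 - u.1) * (w.1 - v.1) ≤ 0 from
                mul_nonpos_of_nonpos_of_nonneg (by linarith) (by linarith))
              (show u'.1 ≤ 0 by linarith)
            exact this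
          · have := mul_nonneg_of_nonpos_of_nonpos (show u'.1 - u.1 ≤ 0 by linarith)
              (show u'.1 - v.1 ≤ 0 by linarith)
            positivity)
      rw [← fw] at this
      exact this
    · have hwn : w ∈ Sn := Finset.mem_filter.2 ⟨hwS, hw1⟩
      have hw2 := (hneg w hwn).2
      have h1 : u'.1 < w.1 := lt_of_le_of_ne (hum' w hwn)
        (fun h => nu' (strict u' (hneg u' hu').1 h).symm)
      have h2 : w.1 < v'.1 := lt_of_le_of_ne (hvm' w hwn)
        (fun h => nv' (strict v' (hneg v' hv').1 h.symm).symm)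
      have h3 := (hpos u hu).2
      have h4 := (hneg v' hv').2
      have h5 := (hneg u' hu').2
      have := hp_conv (inS u' (hneg u' hu').1 nu') (inS v' (hneg v' hv').1 nv')
        (inS u (hpos u hu).1 nu) h5.ne h4.ne h3.ne' w0 (by linarith) (by linarith)
        (by linarith)
        (by
          apply div_nonneg_of_nonpos
          · exact mul_nonpos_of_nonneg_of_nonpos
              (mul_nonneg (by linarith) (by linarith)) (by linarith)
          · exact mul_nonpos_of_nonneg_of_nonpos
              (mul_nonneg (by linarith) (by linarith)) (by linarith))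
        (by
          apply div_nonneg_of_nonpos
          · exact mul_nonpos_of_nonneg_of_nonpos
              (mul_nonneg (by linarith) (by linarith)) (by linarith)
          · exact mul_nonpos_of_nonneg_of_nonpos
              (mul_nonneg (by linarith) (by linarith)) (by linarith))
        (by
          apply div_nonneg_of_nonpos
          · exact mul_nonpos_of_nonpos_of_nonneg
              (mul_nonpos_of_nonneg_of_nonpos (by linarith) (by linarith)) (by linarith)
          · exact mul_nonpos_of_nonneg_of_nonpos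
              (mul_nonneg (by linarith) (by linarith)) (by linarith))
      rw [← fw] at this
      exact this
  have h1 := Set.ncard_le_ncard hsub (Finset.finite_toSet _)
  rw [Set.ncard_coe_finset] at h1
  exact h1.trans Finset.card_le_four

theorem lower (n : ℕ) (hn : 5 ≤ n) (N : ℕ)
    (hN : ∀ A : Finset (ℝ × ℝ), A.card = N →
            (∀ a ∈ A, ∀ b ∈ A, ∀ c ∈ A, a ≠ b → a ≠ c → b ≠ c →
              ¬ Collinear ℝ ({a, b, c} : Set (ℝ × ℝ))) →
            ∃ S ⊆ A, S.card = n ∧
              5 ≤ (Set.extremePoints ℝ (convexHull ℝ (S : Set (ℝ × ℝ)))).ncard) :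
    2 * n - 1 ≤ N := by
  by_contra hcon
  push Not at hcon
  obtain ⟨A, hA, hcA⟩ := Finset.exists_subset_card_eq
    (show N ≤ (HP (n - 1)).card by rw [HP_card]; omega)
  obtain ⟨S, hS, hcS, h5⟩ := hN A hcA (by
    intro a ha b hb c hc hab hac hbc hcol
    exact HP_gp (n - 1) a (hA ha) b (hA hb) c (hA hc) hab hac hbc (o_of_collinear hcol))
  have := HP_few (hS.trans hA) (by omega)
  omega

end Pool.Agent.TH835.G5
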